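import Pool.Agent.Helper14K9.HC.Stm

/-! # Project HC: leaf ARB (helper12) -/

set_option autoImplicit false

namespace Pool.Agent.Helper12K9.HC

open Function
open Pool.Agent.Y924.EL Pool.Agent.Y924.UF
open Pool.Agent.Helper14K9.SO Pool.Agent.Helper14K9.PJ Pool.Agent.Helper14K9.HC

theorem arb : S_ARB := by
  classical
  intro p _ P ρ hW R
  set x : ℕ → LaurentSeries (ZMod p) := fun m =>
    HahnSeries.ofPowerSeries ℤ (ZMod p) (PowerSeries.mk fun i => if R m i then 1 else 0) with hx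
  have hf : Tk P (fun v => x (ρ (v 0))) :=
    Ts.op1 (ρ := ρ) (σ := id) (F := x) hW.num.surj surjective_id (hW.seq x) eqS_id
      (Ts.var hW.num.eqS 0)
  have hg : Tk P (fun v => tq p ^ ρ (v 1)) :=
    Ts.op1 (ρ := ρ) (σ := id) (F := fun n => tq p ^ n) hW.num.surj surjective_id hW.tpw eqS_id
      (Ts.var hW.num.eqS 1)
  have hc : ∀ m i, lam (x m * (tq p ^ i)⁻¹) = if R m i then 1 else 0 := by
    intro m i
    rw [TpwL.lam_inv]
    simp only [hx]
    rw [HahnSeries.ofPowerSeries_apply_coeff, PowerSeries.coeff_mk]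
  have h0 : Pool.Agent.Helper14K9.PJ.lam (0 : LaurentSeries (ZMod p)) = 0 := by simp [Pool.Agent.Helper14K9.PJ.lam]
  refine (rc_lam (hf.mul hg.inv) (Tk.const 0)).not.congr fun v => ?_
  rw [hc, h0]
  by_cases h : R (ρ (v 0)) (ρ (v 1))
  · simp [h]
  · simp [h]

end Pool.Agent.Helper12K9.HC
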