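import Pool.Agent.Helper12K9.HC.Defs

namespace Pool.Agent.Helper12K9.HC

open Function

variable {d : ℕ} {κ : Type*} [Fintype κ] {g : κ → (EuclideanSpace ℝ (Fin d) →ₗ[ℝ] ℝ)}

open Classical in
/-- the arrangement of the kernels of the forms `g k` -/
noncomputable def Arr (g : κ → (EuclideanSpace ℝ (Fin d) →ₗ[ℝ] ℝ)) :
    Finset (Submodule ℝ (EuclideanSpace ℝ (Fin d))) :=
  Finset.univ.image (fun k => LinearMap.ker (g k))

theorem mem_Arr {H : Submodule ℝ (EuclideanSpace ℝ (Fin d))} :
    H ∈ Arr g ↔ ∃ k, LinearMap.ker (g k) = H := by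
  classical
  simp [Arr]

theorem mem_Compl {x : EuclideanSpace ℝ (Fin d)} : x ∈ Compl (Arr g) ↔ ∀ k, g k x ≠ 0 := by
  constructor
  · intro h k hk
    exact h _ (mem_Arr.2 ⟨k, rfl⟩) (LinearMap.mem_ker.2 hk)
  · rintro h H hH hx
    obtain ⟨k, rfl⟩ := mem_Arr.1 hH
    exact h k (LinearMap.mem_ker.1 hx)

theorem seg_iff (f : EuclideanSpace ℝ (Fin d) →ₗ[ℝ] ℝ) {x y : EuclideanSpace ℝ (Fin d)}
    (hx : f x ≠ 0) (hy : f y ≠ 0) :
    (segment ℝ x y ∩ (LinearMap.ker f : Set (EuclideanSpace ℝ (Fin d)))).Nonempty ↔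
      ¬ (0 < f x ↔ 0 < f y) := by
  constructor
  · rintro ⟨z, ⟨a, b, ha, hb, hab, rfl⟩, hz⟩ hiff
    have hz' : a * f x + b * f y = 0 := by
      have : f (a • x + b • y) = 0 := hz
      simpa using this
    rcases lt_or_gt_of_ne hx with h1 | h1
    · have h2 : f y < 0 := lt_of_le_of_ne (not_lt.1 fun h => (not_lt.2 h1.le) (hiff.2 h)) hy
      have : a = 0 ∨ 0 < a := by rcases ha.eq_or_lt with h | h; exacts [Or.inl h.symm, Or.inr h]
      rcases this with h | h
      · subst h; have hb1 : b = 1 := by linarith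
        subst hb1; simp at hz'; exact hy hz'
      · have : a * f x < 0 := mul_neg_of_pos_of_neg h h1
        have : b * f y ≤ 0 := mul_nonpos_of_nonneg_of_nonpos hb h2.le
        linarith
    · have h2 : 0 < f y := hiff.1 h1
      have : a = 0 ∨ 0 < a := by rcases ha.eq_or_lt with h | h; exacts [Or.inl h.symm, Or.inr h]
      rcases this with h | h
      · subst h; have hb1 : b = 1 := by linarith
        subst hb1; simp at hz'; exact hy hz'
      · have : 0 < a * f x := mul_pos h h1
        have : 0 ≤ b * f y := mul_nonneg hb h2.le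
        linarith
  · intro hne
    have key : ∀ u w : ℝ, u < 0 → 0 < w → 0 < w - u ∧ w / (w - u) + (-u) / (w - u) = 1 ∧
        w / (w - u) * u + (-u) / (w - u) * w = 0 := by
      intro u w hu hw
      have : 0 < w - u := by linarith
      refine ⟨this, ?_, ?_⟩
      · field_simp; ring
      · field_simp; ring
    rcases lt_or_gt_of_ne hx with h1 | h1
    · have h2 : 0 < f y := by
        by_contra h2
        exact hne ⟨fun h => absurd h (not_lt.2 h1.le), fun h => absurd h h2⟩
      obtain ⟨k0, k1, k2⟩ := key _ _ h1 h2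
      refine ⟨(f y / (f y - f x)) • x + (-f x / (f y - f x)) • y,
        ⟨_, _, (div_pos h2 k0).le, (div_pos (neg_pos.2 h1) k0).le, k1, rfl⟩, ?_⟩
      show f _ = 0
      simpa using k2
    · have h2 : f y < 0 := by
        by_contra h2
        have h2' : 0 < f y := lt_of_le_of_ne (not_lt.1 h2) hy.symm
        exact hne ⟨fun _ => h2', fun _ => h1⟩
      obtain ⟨k0, k1, k2⟩ := key _ _ h2 h1
      refine ⟨(-f y / (f x - f y)) • x + (f x / (f x - f y)) • y,
        ⟨_, _, (div_pos (neg_pos.2 h2) k0).le, (div_pos h1 k0).le, by linarith, rfl⟩, ?_⟩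
      show f _ = 0
      simp only [map_add, map_smul, smul_eq_mul]
      linarith

theorem sign_of_mk_eq {x y : Compl (Arr g)}
    (h : (ConnectedComponents.mk x : Region (Arr g)) = ConnectedComponents.mk y) (k : κ) :
    (0 < g k x ↔ 0 < g k y) := by
  have hcont : Continuous fun z : Compl (Arr g) => g k z :=
    (LinearMap.continuous_of_finiteDimensional (g k)).comp continuous_subtype_val
  have hclopen : IsClopen {z : Compl (Arr g) | 0 < g k z} := by
    refine ⟨?_, isOpen_lt continuous_const hcont⟩
    have : {z : Compl (Arr g) | 0 < g k z} = {z : Compl (Arr g) | 0 ≤ g k z} := by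
      ext z
      have hz := (mem_Compl.1 z.2) k
      constructor
      · intro h
        have h' : 0 < g k z := h
        exact h'.le
      · intro h
        have h' : 0 ≤ g k z := h
        exact lt_of_le_of_ne h' hz.symm
    rw [this]
    exact isClosed_le continuous_const hcont
  constructor
  · intro hx
    have h1 := hclopen.connectedComponent_subset (x := x) hx
    exact h1 (ConnectedComponents.coe_eq_coe'.1 h.symm)
  · intro hy
    have h1 := hclopen.connectedComponent_subset (x := y) hy
    exact h1 (ConnectedComponents.coe_eq_coe'.1 h)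

theorem mk_eq_of_sign {x y : Compl (Arr g)} (h : ∀ k, (0 < g k x ↔ 0 < g k y)) :
    (ConnectedComponents.mk x : Region (Arr g)) = ConnectedComponents.mk y := by
  have hseg : segment ℝ (x : EuclideanSpace ℝ (Fin d)) y ⊆ Compl (Arr g) := by
    intro z hz
    rw [mem_Compl]
    intro k hk
    have := (seg_iff (g k) (mem_Compl.1 x.2 k) (mem_Compl.1 y.2 k)).1 ⟨z, hz, hk⟩
    exact this (h k)
  have hj := JoinedIn.of_segment_subset hseg
  have hj2 : Joined y x := ((joinedIn_iff_joined x.2 y.2).1 hj).symm
  exact ConnectedComponents.coe_eq_coe'.2 (pathComponent_subset_component y hj2)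

theorem separates_iff {x y : Compl (Arr g)} (k : κ) :
    Separates (LinearMap.ker (g k)) (ConnectedComponents.mk x : Region (Arr g))
      (ConnectedComponents.mk y) ↔ ¬ (0 < g k x ↔ 0 < g k y) := by
  constructor
  · intro h
    exact (seg_iff (g k) (mem_Compl.1 x.2 k) (mem_Compl.1 y.2 k)).1 (h x y rfl rfl)
  · intro h x' y' hx' hy'
    rw [seg_iff (g k) (mem_Compl.1 x'.2 k) (mem_Compl.1 y'.2 k),
      sign_of_mk_eq hx' k, sign_of_mk_eq hy' k]
    exact h

open Classical in
/-- the set of hyperplanes separating two regions -/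
noncomputable def Sep (R S : Region (Arr g)) :
    Finset (Submodule ℝ (EuclideanSpace ℝ (Fin d))) :=
  (Arr g).filter (fun H => Separates H R S)

theorem mem_Sep {R S : Region (Arr g)} {H : Submodule ℝ (EuclideanSpace ℝ (Fin d))} :
    H ∈ Sep R S ↔ H ∈ Arr g ∧ Separates H R S := by
  classical
  simp [Sep]

theorem Sep_self (R : Region (Arr g)) : Sep R R = ∅ := by
  obtain ⟨x, rfl⟩ := ConnectedComponents.surjective_coe R
  ext H
  simp only [mem_Sep, Finset.notMem_empty, iff_false, not_and]
  intro hH hs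
  obtain ⟨k, rfl⟩ := mem_Arr.1 hH
  exact (separates_iff k).1 hs Iff.rfl

theorem Sep_triangle [DecidableEq (Submodule ℝ (EuclideanSpace ℝ (Fin d)))]
    (R S T : Region (Arr g)) : Sep R T ⊆ Sep R S ∪ Sep S T := by
  obtain ⟨x, rfl⟩ := ConnectedComponents.surjective_coe R
  obtain ⟨y, rfl⟩ := ConnectedComponents.surjective_coe S
  obtain ⟨z, rfl⟩ := ConnectedComponents.surjective_coe T
  intro H hH
  rw [mem_Sep] at hH
  obtain ⟨k, rfl⟩ := mem_Arr.1 hH.1
  have h1 := (separates_iff k).1 hH.2
  rw [Finset.mem_union, mem_Sep, mem_Sep, separates_iff, separates_iff]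
  have := hH.1
  tauto

theorem adj_Sep {R S : Region (Arr g)} (h : (topeGraph (Arr g)).Adj R S) :
    (Sep R S).card = 1 := by
  obtain ⟨-, H, hH, hu⟩ := h
  rw [Finset.card_eq_one]
  refine ⟨H, ?_⟩
  ext H'
  rw [mem_Sep, Finset.mem_singleton]
  exact ⟨fun h => hu H' h, fun h => h ▸ hH⟩

theorem adj_of_Sep {R S : Region (Arr g)} (h : (Sep R S).card = 1) :
    (topeGraph (Arr g)).Adj R S := by
  refine ⟨?_, ?_⟩
  · rintro rfl
    rw [Sep_self] at h
    simp at h
  · obtain ⟨H, hH⟩ := Finset.card_eq_one.1 h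
    refine ⟨H, mem_Sep.1 (hH ▸ Finset.mem_singleton_self H), fun H' h' => ?_⟩
    have := mem_Sep.2 h'
    rw [hH] at this
    simpa using this

theorem Sep_le_walk {R S : Region (Arr g)} (p : (topeGraph (Arr g)).Walk R S) :
    (Sep R S).card ≤ p.length := by
  classical
  induction p with
  | nil => simp [Sep_self]
  | cons h p ih =>
    rename_i u v w
    have h1 := adj_Sep h
    have h2 := Finset.card_le_card (Sep_triangle u v w)
    have h3 := Finset.card_union_le (Sep u v) (Sep v w)
    rw [SimpleGraph.Walk.length_cons]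
    omega

/-- A convexity criterion: if `R, S` are joined by a walk of length `|Sep R S|`, then on a
shortest walk from `R` to `S` no hyperplane outside `Sep R S` is crossed. -/
theorem no_cross {R S : Region (Arr g)} (hd : (topeGraph (Arr g)).dist R S ≤ (Sep R S).card)
    (p : (topeGraph (Arr g)).Walk R S) (hp : p.length = (topeGraph (Arr g)).dist R S)
    {T : Region (Arr g)} (hT : T ∈ p.support) {H : Submodule ℝ (EuclideanSpace ℝ (Fin d))}
    (h1 : H ∈ Sep R T) (h2 : H ∈ Sep T S) : False := by
  classical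
  have e1 := Sep_le_walk (p.takeUntil T hT)
  have e2 := Sep_le_walk (p.dropUntil T hT)
  have e3 : (p.takeUntil T hT).length + (p.dropUntil T hT).length = p.length := by
    rw [← SimpleGraph.Walk.length_append, SimpleGraph.Walk.take_spec]
  have e4 : (Sep R S).card ≤ ((Sep R T).erase H ∪ (Sep T S).erase H).card := by
    apply Finset.card_le_card
    intro K hK
    have h5 := Sep_triangle R T S hK
    have hKH : K ≠ H := by
      rintro rfl
      obtain ⟨x, rfl⟩ := ConnectedComponents.surjective_coe R
      obtain ⟨y, rfl⟩ := ConnectedComponents.surjective_coe T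
      obtain ⟨z, rfl⟩ := ConnectedComponents.surjective_coe S
      rw [mem_Sep] at hK h1 h2
      obtain ⟨k, rfl⟩ := mem_Arr.1 hK.1
      have a1 := (separates_iff k).1 hK.2
      have a2 := (separates_iff k).1 h1.2
      have a3 := (separates_iff k).1 h2.2
      tauto
    rw [Finset.mem_union] at h5 ⊢
    rw [Finset.mem_erase, Finset.mem_erase]
    tauto
  have e5 := Finset.card_union_le ((Sep R T).erase H) ((Sep T S).erase H)
  rw [Finset.card_erase_of_mem h1, Finset.card_erase_of_mem h2] at e5
  have e6 : 0 < (Sep R T).card := Finset.card_pos.2 ⟨H, h1⟩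
  have e7 : 0 < (Sep T S).card := Finset.card_pos.2 ⟨H, h2⟩
  omega

end Pool.Agent.Helper12K9.HC
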