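import Pool.Agent.Helper12K9.HC.Real
import Pool.Agent.Helper12K9.HC.Tope

namespace Pool.Agent.Helper12K9.HC

open Function

theorem realize {ι : Type} [Fintype ι] [DecidableEq ι] {V : Set (ι → Bool)} (h : HCSet V) :
    ∃ (d : ℕ) (A : Finset (Submodule ℝ (EuclideanSpace ℝ (Fin d)))),
      (∀ H ∈ A, Module.finrank ℝ H + 1 = d) ∧
      ∃ Φ : V → Region A, Injective Φ ∧
        (∀ u v : V, (topeGraph A).Adj (Φ u) (Φ v) ↔ hammingDist u.1 v.1 = 1) ∧
        IsConvexSet (topeGraph A) (Set.range Φ) := by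
  classical
  obtain ⟨v₀, hv₀⟩ := h.ne
  obtain ⟨θ, hθ⟩ := exists_IsTheta h hv₀
  set L := Lsub V v₀ θ with hL
  set d := Module.finrank ℝ L with hd
  let e : EuclideanSpace ℝ (Fin d) ≃ₗ[ℝ] L := LinearEquiv.ofFinrankEq _ _ (by simp [hd])
  let C : Type := {c : ι × ι × Bool × Bool // c.1 ≠ c.2.1 ∧ ¬ P2 V c.1 c.2.1 c.2.2.1 c.2.2.2}
  let g : ι ⊕ C → (EuclideanSpace ℝ (Fin d) →ₗ[ℝ] ℝ) := fun k => match k with
    | Sum.inl i => (LinearMap.proj i) ∘ₗ L.subtype ∘ₗ e.toLinearMap
    | Sum.inr c => (sg c.1.2.2.1 • LinearMap.proj c.1.1 + sg c.1.2.2.2 • LinearMap.proj c.1.2.1)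
        ∘ₗ L.subtype ∘ₗ e.toLinearMap
  have g1 : ∀ i z, g (Sum.inl i) z = (e z : ι → ℝ) i := fun i z => rfl
  have g2 : ∀ (c : C) z, g (Sum.inr c) z =
      sg c.1.2.2.1 * (e z : ι → ℝ) c.1.1 + sg c.1.2.2.2 * (e z : ι → ℝ) c.1.2.1 :=
    fun c z => rfl
  have hreal : ∀ v : V, ∃ z : EuclideanSpace ℝ (Fin d), (∀ i, 0 < sg (v.1 i) * g (Sum.inl i) z) ∧
      ∀ c : C, g (Sum.inr c) z < 0 := by
    intro v
    obtain ⟨x, hx, hx1, hx2⟩ := exists_real h hθ v.2
    refine ⟨e.symm ⟨x, hx⟩, fun i => ?_, fun c => ?_⟩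
    · rw [g1, LinearEquiv.apply_symm_apply]; exact hx2 i
    · rw [g2, LinearEquiv.apply_symm_apply]
      exact hx1 _ _ _ _ c.2.1 c.2.2
  choose pt hpt1 hpt2 using hreal
  have hpt3 : ∀ v i, g (Sum.inl i) (pt v) ≠ 0 := by
    intro v i h0
    have := hpt1 v i
    rw [h0, mul_zero] at this
    exact lt_irrefl _ this
  have hmem : ∀ v, pt v ∈ Compl (Arr g) := by
    intro v
    rw [mem_Compl]
    rintro (i | c)
    · exact hpt3 v i
    · exact (hpt2 v c).ne
  have hsg : ∀ v i, (0 < g (Sum.inl i) (pt v) ↔ v.1 i = true) := by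
    intro v i
    have := hpt1 v i
    cases hvi : v.1 i with
    | true =>
      rw [hvi] at this
      simp only [sg_true, one_mul] at this
      simp [this]
    | false =>
      rw [hvi] at this
      simp only [sg_false, neg_mul, one_mul, Left.neg_pos_iff] at this
      simp [this.le]
  let Φ : V → Region (Arr g) := fun v => ConnectedComponents.mk ⟨pt v, hmem v⟩
  have hsep : ∀ u v i, Separates (LinearMap.ker (g (Sum.inl i))) (Φ u) (Φ v) ↔ u.1 i ≠ v.1 i := by
    intro u v i
    rw [separates_iff, hsg, hsg]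
    cases u.1 i <;> cases v.1 i <;> simp
  have hsep2 : ∀ u v c, ¬ Separates (LinearMap.ker (g (Sum.inr c))) (Φ u) (Φ v) := by
    intro u v c
    rw [separates_iff]
    have h1 := hpt2 u c
    have h2 := hpt2 v c
    simp only [not_not]
    exact ⟨fun h => absurd h (not_lt.2 h1.le), fun h => absurd h (not_lt.2 h2.le)⟩
  have hker : ∀ i j, LinearMap.ker (g (Sum.inl i)) = LinearMap.ker (g (Sum.inl j)) → i = j := by
    intro i j hij
    by_contra hne
    obtain ⟨b, hb1, hb2⟩ : ∃ b, P2 V i j true b ∧ P2 V i j false b := by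
      by_cases k1 : P2 V i j true true
      · by_cases k2 : P2 V i j false true
        · exact ⟨true, k1, k2⟩
        · exact ⟨false, P2_other h hne k2 (by simp), P2_other h hne k2 (by simp)⟩
      · exact ⟨false, P2_other h hne k1 (by simp), P2_other h hne k1 (by simp)⟩
    obtain ⟨x, hx, x1, x2⟩ := hb1
    obtain ⟨y, hy, y1, y2⟩ := hb2
    have h1 : Separates (LinearMap.ker (g (Sum.inl i))) (Φ ⟨x, hx⟩) (Φ ⟨y, hy⟩) := by
      rw [hsep]; simp [x1, y1]
    rw [hij, hsep] at h1
    exact h1 (by show x j = y j; rw [x2, y2])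
  have hcard : ∀ u v, (Sep (Φ u) (Φ v)).card = hammingDist u.1 v.1 := by
    intro u v
    have : Sep (Φ u) (Φ v) = (Finset.univ.filter fun i => u.1 i ≠ v.1 i).image
        (fun i => LinearMap.ker (g (Sum.inl i))) := by
      ext H
      rw [mem_Sep, Finset.mem_image]
      constructor
      · rintro ⟨hH, hs⟩
        obtain ⟨k, rfl⟩ := mem_Arr.1 hH
        rcases k with i | c
        · exact ⟨i, by simpa using (hsep u v i).1 hs, rfl⟩
        · exact absurd hs (hsep2 u v c)
      · rintro ⟨i, hi, rfl⟩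
        exact ⟨mem_Arr.2 ⟨Sum.inl i, rfl⟩, (hsep u v i).2 (by simpa using hi)⟩
    rw [this, Finset.card_image_of_injective _ (fun i j hij => hker i j hij)]
    rfl
  have hadj : ∀ u v : V, (topeGraph (Arr g)).Adj (Φ u) (Φ v) ↔ hammingDist u.1 v.1 = 1 := by
    intro u v
    rw [← hcard]
    exact ⟨adj_Sep, adj_of_Sep⟩
  have hwalk : ∀ n, ∀ u v : V, hammingDist u.1 v.1 = n →
      ∃ p : (topeGraph (Arr g)).Walk (Φ u) (Φ v), p.length = n := by
    intro n
    induction n with
    | zero =>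
      intro u v huv
      have : u = v := Subtype.ext (hammingDist_eq_zero.1 huv)
      subst this
      exact ⟨SimpleGraph.Walk.nil, rfl⟩
    | succ n ih =>
      intro u v huv
      have hne : u.1 ≠ v.1 := by
        intro h'
        rw [h'] at huv
        simp at huv
      obtain ⟨i, hi, hz⟩ := h.iso u.1 u.2 v.1 v.2 hne
      have hd1 : hammingDist u.1 (update u.1 i (v.1 i)) = 1 := by
        unfold hammingDist
        rw [Finset.card_eq_one]
        refine ⟨i, ?_⟩
        ext j
        by_cases hj : j = i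
        · subst hj; simp [hi]
        · simp [hj]
      have hd2 : hammingDist (update u.1 i (v.1 i)) v.1 = n := by
        have : hammingDist u.1 v.1 = hammingDist (update u.1 i (v.1 i)) v.1 + 1 := by
          unfold hammingDist
          have : (Finset.univ.filter fun j => u.1 j ≠ v.1 j)
              = insert i (Finset.univ.filter fun j => (update u.1 i (v.1 i)) j ≠ v.1 j) := by
            ext j
            by_cases hj : j = i
            · subst hj; simp [hi]
            · simp [hj]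
          rw [this, Finset.card_insert_of_notMem]
          simp
        omega
      obtain ⟨p, hp⟩ := ih ⟨_, hz⟩ v hd2
      exact ⟨SimpleGraph.Walk.cons ((hadj u ⟨_, hz⟩).2 hd1) p, by simp [hp]⟩
  refine ⟨d, Arr g, ?_, Φ, ?_, hadj, ?_⟩
  · intro H hH
    obtain ⟨k, rfl⟩ := mem_Arr.1 hH
    have hk : g k ≠ 0 := by
      intro h0
      have := mem_Compl.1 (hmem ⟨v₀, hv₀⟩) k
      rw [h0] at this
      exact this rfl
    have := Module.Dual.finrank_ker_add_one_of_ne_zero hk
    rw [this]; simp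
  · intro u v huv
    have h1 := hcard u v
    rw [huv, Sep_self, Finset.card_empty] at h1
    exact Subtype.ext (hammingDist_eq_zero.1 h1.symm)
  · rintro _ ⟨u, rfl⟩ _ ⟨v, rfl⟩ p hp z hz
    obtain ⟨t, rfl⟩ := ConnectedComponents.surjective_coe z
    have ht := mem_Compl.1 t.2
    by_cases hc : ∀ c : C, g (Sum.inr c) t < 0
    · set σ : ι → Bool := fun i => decide (0 < g (Sum.inl i) t) with hσ
      have hσV : σ ∈ V := by
        refine real_mem h hθ (x := (e t : ι → ℝ)) (e t).2 ?_ ?_
        · intro i j a b hij hn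
          exact hc ⟨(i, j, a, b), hij, hn⟩
        · intro i
          have hti := ht (Sum.inl i)
          rw [← g1]
          by_cases hpos : 0 < g (Sum.inl i) t
          · simp [hσ, hpos]
          · have : g (Sum.inl i) t < 0 := lt_of_le_of_ne (not_lt.1 hpos) hti
            simp [hσ, hpos, this]
      refine ⟨⟨σ, hσV⟩, ?_⟩
      apply mk_eq_of_sign
      rintro (i | c)
      · rw [hsg]
        simp [hσ]
      · have h1 := hpt2 ⟨σ, hσV⟩ c
        have h2 := hc c
        exact ⟨fun h => absurd h (not_lt.2 h1.le), fun h => absurd h (not_lt.2 h2.le)⟩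
    · exfalso
      push Not at hc
      obtain ⟨c, hc⟩ := hc
      have hpos : 0 < g (Sum.inr c) t := lt_of_le_of_ne hc (ht (Sum.inr c)).symm
      have hdist : (topeGraph (Arr g)).dist (Φ u) (Φ v) ≤ (Sep (Φ u) (Φ v)).card := by
        obtain ⟨p, hp⟩ := hwalk _ u v rfl
        rw [hcard, ← hp]
        exact SimpleGraph.dist_le p
      refine no_cross hdist p hp hz (H := LinearMap.ker (g (Sum.inr c))) ?_ ?_
      · rw [mem_Sep, separates_iff]
        refine ⟨mem_Arr.2 ⟨Sum.inr c, rfl⟩, fun hh => ?_⟩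
        exact absurd (hh.2 hpos) (not_lt.2 (hpt2 u c).le)
      · rw [mem_Sep, separates_iff]
        refine ⟨mem_Arr.2 ⟨Sum.inr c, rfl⟩, fun hh => ?_⟩
        exact absurd (hh.1 hpos) (not_lt.2 (hpt2 v c).le)

end Pool.Agent.Helper12K9.HC
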