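import Mathlib

namespace Pool.Agent.Helper12K9.HC

open Function

variable {ι : Type*} [DecidableEq ι]

/-- The hypotheses on a family `V` of sign vectors used throughout: every coordinate takes both
values, `V` is isometric in the cube, and no face followed by a projection to three coordinates
shows exactly seven of the eight patterns. -/
structure HCSet (V : Set (ι → Bool)) : Prop where
  ne : V.Nonempty
  nonconst : ∀ (i : ι) (b : Bool), ∃ x ∈ V, x i = b
  iso : ∀ x ∈ V, ∀ y ∈ V, x ≠ y → ∃ i, x i ≠ y i ∧ update x i (y i) ∈ V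
  q7 : ∀ (F : Finset ι) (i j k : ι), i ≠ j → i ≠ k → j ≠ k → i ∉ F → j ∉ F → k ∉ F →
    ∀ σ : ι → Bool,
      (∀ τ : ι → Bool, (∀ l ∈ F, τ l = σ l) → (τ i ≠ σ i ∨ τ j ≠ σ j ∨ τ k ≠ σ k) →
        ∃ x ∈ V, (∀ l ∈ F, x l = τ l) ∧ x i = τ i ∧ x j = τ j ∧ x k = τ k) →
      ∃ x ∈ V, (∀ l ∈ F, x l = σ l) ∧ x i = σ i ∧ x j = σ j ∧ x k = σ k

theorem beq_of_ne_ne {a b c : Bool} (h1 : a ≠ c) (h2 : b ≠ c) : a = b := by
  revert a b c; decide

theorem beq_not {a b : Bool} (h1 : a ≠ b) : a = !b := by
  revert a b; decide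

/-- The pattern `σ` flipped exactly on `T` is realised on `I`. -/
def W (V : Set (ι → Bool)) (σ : ι → Bool) (I T : Finset ι) : Prop :=
  ∃ x ∈ V, ∀ l ∈ I, (x l ≠ σ l ↔ l ∈ T)

variable {V : Set (ι → Bool)}

omit [DecidableEq ι] in
theorem W.mono {σ : ι → Bool} {I J T : Finset ι} (h : W V σ I T) (hJ : J ⊆ I) : W V σ J T := by
  obtain ⟨x, hx, h⟩ := h
  exact ⟨x, hx, fun l hl => h l (hJ hl)⟩

/-- Geodesic step seen on a set of coordinates. -/
theorem step_pat [Fintype ι] (h : HCSet V) (I : Finset ι) :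
    ∀ n : ℕ, ∀ x ∈ V, ∀ y ∈ V, hammingDist x y = n → (∃ i ∈ I, x i ≠ y i) →
      ∃ i ∈ I, x i ≠ y i ∧ ∃ z ∈ V, (∀ j ∈ I, j ≠ i → z j = x j) ∧ z i = y i := by
  intro n
  induction n with
  | zero =>
    intro x hx y hy hd hI
    obtain ⟨i, -, hi⟩ := hI
    exact absurd (by rw [hammingDist_eq_zero.1 hd]) hi
  | succ n ih =>
    intro x hx y hy hd hI
    have hxy : x ≠ y := by
      rintro rfl
      simp at hd
    obtain ⟨i, hi, hz⟩ := h.iso x hx y hy hxy
    by_cases hiI : i ∈ I
    · refine ⟨i, hiI, hi, _, hz, ?_, ?_⟩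
      · intro j _ hj
        simp [hj]
      · simp
    · have hd' : hammingDist (update x i (y i)) y = n := by
        have : hammingDist x y = hammingDist (update x i (y i)) y + 1 := by
          unfold hammingDist
          have : (Finset.univ.filter fun j => x j ≠ y j)
              = insert i (Finset.univ.filter fun j => (update x i (y i)) j ≠ y j) := by
            ext j
            by_cases hj : j = i
            · subst hj; simp [hi]
            · simp [update_of_ne hj, hj]
          rw [this, Finset.card_insert_of_notMem]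
          simp
        omega
      obtain ⟨k, hkI, hk⟩ := hI
      have hki : k ≠ i := by rintro rfl; exact hiI hkI
      obtain ⟨j, hjI, hj, z, hz', hz1, hz2⟩ := ih _ hz y hy hd'
        ⟨k, hkI, by rw [update_of_ne hki]; exact hk⟩
      have hji : j ≠ i := by rintro rfl; exact hiI hjI
      refine ⟨j, hjI, by rw [update_of_ne hji] at hj; exact hj, z, hz', ?_, hz2⟩
      intro l hl hlj
      rw [hz1 l hl hlj, update_of_ne]
      rintro rfl; exact hiI hl

theorem step_pat' [Fintype ι] (h : HCSet V) (I : Finset ι) {x y : ι → Bool} (hx : x ∈ V)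
    (hy : y ∈ V) (hI : ∃ i ∈ I, x i ≠ y i) :
      ∃ i ∈ I, x i ≠ y i ∧ ∃ z ∈ V, (∀ j ∈ I, j ≠ i → z j = x j) ∧ z i = y i :=
  step_pat h I _ x hx y hy rfl hI

/-- The square lemma. -/
theorem sq [Fintype ι] (h : HCSet V) (I : Finset ι) {i j : ι} (hi : i ∈ I) (hj : j ∈ I)
    (hij : i ≠ j) {x y : ι → Bool} (hx : x ∈ V) (hy : y ∈ V)
    (hoff : ∀ k ∈ I, k ≠ i → k ≠ j → x k = y k) (hxi : x i ≠ y i) (hxj : x j ≠ y j) :
    ∃ z ∈ V, (∀ k ∈ I, k ≠ i → k ≠ j → z k = x k) ∧
      ((z i = y i ∧ z j = x j) ∨ (z i = x i ∧ z j = y j)) := by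
  obtain ⟨k, hk, hxk, z, hz, hz1, hz2⟩ := step_pat' h I hx hy ⟨i, hi, hxi⟩
  by_cases hki : k = i
  · subst hki
    exact ⟨z, hz, fun l hl hl1 _ => hz1 l hl hl1, Or.inl ⟨hz2, hz1 j hj hij.symm⟩⟩
  · by_cases hkj : k = j
    · subst hkj
      exact ⟨z, hz, fun l hl _ hl2 => hz1 l hl hl2, Or.inr ⟨hz1 i hi hij, hz2⟩⟩
    · exact absurd (hoff k hk hki hkj) hxk

theorem q7W (h : HCSet V) (σ : ι → Bool) (I : Finset ι) {i j k : ι} (hi : i ∈ I) (hj : j ∈ I)
    (hk : k ∈ I) (hij : i ≠ j) (hik : i ≠ k) (hjk : j ≠ k) (T0 : Finset ι)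
    (hT0 : T0 ⊆ {i, j, k}) (H : ∀ T ⊆ ({i, j, k} : Finset ι), T ≠ T0 → W V σ I T) :
    W V σ I T0 := by
  classical
  set σ' : ι → Bool := fun l => if l ∈ T0 then !σ l else σ l with hσ'
  set F : Finset ι := ((I.erase i).erase j).erase k with hF
  have memF : ∀ l, l ∈ F ↔ l ≠ k ∧ l ≠ j ∧ l ≠ i ∧ l ∈ I := by
    intro l; simp [hF]
  have offT : ∀ T ⊆ ({i, j, k} : Finset ι), ∀ l ∈ F, l ∉ T := by
    intro T hT l hl hlT
    have := hT hlT
    rw [memF] at hl
    simp at this
    tauto
  have key := h.q7 F i j k hij hik hjk (by simp [hF]) (by simp [hF]) (by simp [hF]) σ' ?_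
  · obtain ⟨x, hx, hxF, hxi, hxj, hxk⟩ := key
    refine ⟨x, hx, fun l hl => ?_⟩
    have : x l = σ' l := by
      by_cases h1 : l = i
      · rw [h1]; exact hxi
      by_cases h2 : l = j
      · rw [h2]; exact hxj
      by_cases h3 : l = k
      · rw [h3]; exact hxk
      exact hxF l ((memF l).2 ⟨h3, h2, h1, hl⟩)
    rw [this, hσ']
    by_cases hl0 : l ∈ T0 <;> simp [hl0]
  · intro τ hτF hτ
    set T : Finset ι := ({i, j, k} : Finset ι).filter (fun l => τ l ≠ σ l) with hT
    have hTs : T ⊆ {i, j, k} := Finset.filter_subset _ _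
    have hTT : T ≠ T0 := by
      intro hTT
      have e : ∀ l ∈ ({i, j, k} : Finset ι), τ l = σ' l := by
        intro l hl
        by_cases hl0 : l ∈ T0
        · have : l ∈ T := by rw [hTT]; exact hl0
          have h2 : τ l ≠ σ l := by simpa [hT] using (Finset.mem_filter.1 this).2
          simp only [hσ', hl0, if_true]
          exact beq_not h2
        · have : l ∉ T := by rw [hTT]; exact hl0
          have h2 : τ l = σ l := by
            by_contra h3
            exact this (Finset.mem_filter.2 ⟨hl, h3⟩)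
          simp [hσ', hl0, h2]
      rcases hτ with h1 | h1 | h1
      · exact h1 (e i (by simp))
      · exact h1 (e j (by simp))
      · exact h1 (e k (by simp))
    obtain ⟨x, hx, hxT⟩ := H T hTs hTT
    have e : ∀ l ∈ ({i, j, k} : Finset ι), l ∈ I → x l = τ l := by
      intro l hl hlI
      by_cases h1 : τ l = σ l
      · have : l ∉ T := by simp [hT, h1]
        have := (not_iff_not.2 (hxT l hlI)).2 this
        rw [h1]; simpa using this
      · have : l ∈ T := Finset.mem_filter.2 ⟨hl, h1⟩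
        have := (hxT l hlI).2 this
        exact beq_of_ne_ne this h1
    refine ⟨x, hx, fun l hl => ?_, e i (by simp) hi, e j (by simp) hj, e k (by simp) hk⟩
    have hlT := offT T hTs l hl
    have := (not_iff_not.2 (hxT l ((memF l).1 hl).2.2.2)).2 hlT
    rw [hτF l hl]
    have h0 := offT T0 hT0 l hl
    simp only [hσ', h0, if_false]
    simpa using this

/-- A pattern is realised as soon as its restrictions to at most three coordinates are. -/
theorem F3 [Fintype ι] (h : HCSet V) (σ : ι → Bool) (I : Finset ι)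
    (h2 : ∀ i ∈ I, ∀ j ∈ I, ∃ x ∈ V, x i = σ i ∧ x j = σ j)
    (h3 : ∀ i ∈ I, ∀ j ∈ I, ∀ k ∈ I, i ≠ j → i ≠ k → j ≠ k →
      ∃ x ∈ V, x i = σ i ∧ x j = σ j ∧ x k = σ k) :
    ∃ x ∈ V, ∀ i ∈ I, x i = σ i := by
  classical
  suffices H : W V σ I ∅ by
    obtain ⟨x, hx, hxI⟩ := H
    exact ⟨x, hx, fun i hi => by simpa using hxI i hi⟩
  induction I using Finset.strongInduction with
  | H I ih =>
    have IH : ∀ J ⊂ I, W V σ J ∅ := fun J hJ => ih J hJ
      (fun i hi j hj => h2 i (hJ.1 hi) j (hJ.1 hj))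
      (fun i hi j hj k hk => h3 i (hJ.1 hi) j (hJ.1 hj) k (hJ.1 hk))
    by_contra hcon
    -- sizes at most three
    have hcard : 4 ≤ I.card := by
      by_contra hlt
      push Not at hlt
      have : I.card = 0 ∨ I.card = 1 ∨ I.card = 2 ∨ I.card = 3 := by omega
      rcases this with h0 | h0 | h0 | h0
      · rw [Finset.card_eq_zero] at h0
        subst h0
        obtain ⟨x, hx⟩ := h.ne
        exact hcon ⟨x, hx, by simp⟩
      · obtain ⟨a, rfl⟩ := Finset.card_eq_one.1 h0
        obtain ⟨x, hx, hxa, -⟩ := h2 a (by simp) a (by simp)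
        exact hcon ⟨x, hx, by simp [hxa]⟩
      · obtain ⟨a, b, hab, rfl⟩ := Finset.card_eq_two.1 h0
        obtain ⟨x, hx, hxa, hxb⟩ := h2 a (by simp) b (by simp)
        exact hcon ⟨x, hx, by simp [hxa, hxb]⟩
      · obtain ⟨a, b, c, hab, hac, hbc, rfl⟩ := Finset.card_eq_three.1 h0
        obtain ⟨x, hx, hxa, hxb, hxc⟩ := h3 a (by simp) b (by simp) c (by simp) hab hac hbc
        exact hcon ⟨x, hx, by simp [hxa, hxb, hxc]⟩
    -- singles
    have hA : ∀ i ∈ I, W V σ I {i} := by
      intro i hi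
      obtain ⟨x, hx, hxI⟩ := IH (I.erase i) (Finset.erase_ssubset hi)
      by_cases hxi : x i = σ i
      · exfalso
        apply hcon
        refine ⟨x, hx, fun l hl => ?_⟩
        by_cases hli : l = i
        · subst hli; simp [hxi]
        · exact hxI l (Finset.mem_erase.2 ⟨hli, hl⟩)
      · refine ⟨x, hx, fun l hl => ?_⟩
        by_cases hli : l = i
        · subst hli; simp [hxi]
        · have := hxI l (Finset.mem_erase.2 ⟨hli, hl⟩)
          simpa [hli] using this
    -- pairs
    have hB : ∀ i ∈ I, ∀ j ∈ I, i ≠ j → W V σ I {i, j} := by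
      intro i hi j hj hij
      obtain ⟨x, hx, hxI⟩ := hA i hi
      obtain ⟨y, hy, hyI⟩ := hA j hj
      have off : ∀ k ∈ I, k ≠ i → k ≠ j → x k = y k := by
        intro k hk hki hkj
        have e1 := hxI k hk
        have e2 := hyI k hk
        simp [hki] at e1
        simp [hkj] at e2
        rw [e1, e2]
      have xi := (hxI i hi).2 (by simp)
      have yi : y i = σ i := by
        have := (not_iff_not.2 (hyI i hi)).2 (by simpa using hij)
        simpa using this
      have yj := (hyI j hj).2 (by simp)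
      have xj : x j = σ j := by
        have := (not_iff_not.2 (hxI j hj)).2 (by simpa using hij.symm)
        simpa using this
      obtain ⟨z, hz, hzo, hzz⟩ := sq h I hi hj hij hx hy off (by rw [yi]; exact xi)
        (by rw [xj]; exact Ne.symm yj)
      have zo : ∀ k ∈ I, k ≠ i → k ≠ j → z k = σ k := by
        intro k hk hki hkj
        rw [hzo k hk hki hkj]
        have e1 := hxI k hk
        simpa [hki] using e1
      rcases hzz with ⟨h1, h4⟩ | ⟨h1, h4⟩
      · exfalso
        apply hcon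
        refine ⟨z, hz, fun l hl => ?_⟩
        by_cases hli : l = i
        · subst hli; simp [h1, yi]
        by_cases hlj : l = j
        · subst hlj; simp [h4, xj]
        simp [zo l hl hli hlj]
      · refine ⟨z, hz, fun l hl => ?_⟩
        by_cases hli : l = i
        · subst hli; simpa [h1] using xi
        by_cases hlj : l = j
        · subst hlj; simpa [h4] using yj
        simp [zo l hl hli hlj, hli, hlj]
    -- triples
    have subcases : ∀ (i j k : ι), i ∈ I → j ∈ I → k ∈ I → i ≠ j → i ≠ k → j ≠ k →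
        ∀ T ⊆ ({i, j, k} : Finset ι), T ≠ ∅ → T ≠ {i, j, k} → W V σ I T := by
      intro i j k hi hj hk hij hik hjk T hT hT0 hT3
      have hc3 : ({i, j, k} : Finset ι).card = 3 := Finset.card_eq_three.2
        ⟨i, j, k, hij, hik, hjk, rfl⟩
      have h1 : T.card ≠ 0 := by simpa using hT0
      have h2' : T.card < 3 := by
        rw [← hc3]
        exact Finset.card_lt_card (Finset.ssubset_iff_subset_ne.2 ⟨hT, hT3⟩)
      have hTI : T ⊆ I := by
        refine hT.trans ?_
        intro l hl
        simp at hl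
        rcases hl with rfl | rfl | rfl <;> assumption
      have : T.card = 1 ∨ T.card = 2 := by omega
      rcases this with hc | hc
      · obtain ⟨a, rfl⟩ := Finset.card_eq_one.1 hc
        exact hA a (hTI (by simp))
      · obtain ⟨a, b, hab, rfl⟩ := Finset.card_eq_two.1 hc
        exact hB a (hTI (by simp)) b (hTI (by simp)) hab
    have hC : ∀ i ∈ I, ∀ j ∈ I, ∀ k ∈ I, i ≠ j → i ≠ k → j ≠ k → ¬ W V σ I {i, j, k} := by
      intro i hi j hj k hk hij hik hjk hW
      apply hcon
      refine q7W h σ I hi hj hk hij hik hjk ∅ (by simp) ?_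
      intro T hT hT0
      by_cases hT3 : T = {i, j, k}
      · rw [hT3]; exact hW
      · exact subcases i j k hi hj hk hij hik hjk T hT hT0 hT3
    -- four distinct elements
    obtain ⟨J, hJI, hJ⟩ := Finset.exists_subset_card_eq hcard
    obtain ⟨a, ha⟩ := Finset.card_pos.1 (by omega : 0 < J.card)
    have hJ3 : (J.erase a).card = 3 := by rw [Finset.card_erase_of_mem ha, hJ]
    obtain ⟨i, j, k, hij, hik, hjk, hJe⟩ := Finset.card_eq_three.1 hJ3
    have haI : a ∈ I := hJI ha
    have hmem : ∀ l ∈ ({i, j, k} : Finset ι), l ≠ a ∧ l ∈ I := by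
      intro l hl
      rw [← hJe] at hl
      exact ⟨Finset.ne_of_mem_erase hl, hJI (Finset.mem_of_mem_erase hl)⟩
    obtain ⟨hia, hi⟩ := hmem i (by simp)
    obtain ⟨hja, hj⟩ := hmem j (by simp)
    obtain ⟨hka, hk⟩ := hmem k (by simp)
    have hD : W V σ (I.erase a) {i, j, k} := by
      refine q7W h σ (I.erase a) (Finset.mem_erase.2 ⟨hia, hi⟩) (Finset.mem_erase.2 ⟨hja, hj⟩)
        (Finset.mem_erase.2 ⟨hka, hk⟩) hij hik hjk _ (Finset.Subset.refl _) ?_
      intro T hT hT3
      by_cases hT0 : T = ∅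
      · rw [hT0]; exact IH _ (Finset.erase_ssubset haI)
      · exact (subcases i j k hi hj hk hij hik hjk T hT hT0 hT3).mono (Finset.erase_subset _ _)
    obtain ⟨y, hy, hyI⟩ := hD
    have hya : y a ≠ σ a := by
      intro hya
      apply hC i hi j hj k hk hij hik hjk
      refine ⟨y, hy, fun l hl => ?_⟩
      by_cases hla : l = a
      · subst hla
        simp [hya, hia.symm, hja.symm, hka.symm]
      · exact hyI l (Finset.mem_erase.2 ⟨hla, hl⟩)
    obtain ⟨x, hx, hxI⟩ := hB i hi j hj hij
    have off : ∀ l ∈ I, l ≠ k → l ≠ a → x l = y l := by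
      intro l hl hlk hla
      have e1 := hxI l hl
      have e2 := hyI l (Finset.mem_erase.2 ⟨hla, hl⟩)
      have e3 : (x l ≠ σ l ↔ y l ≠ σ l) := by
        rw [e1, e2]; simp [hlk]
      by_cases h5 : x l = σ l
      · have h6 : y l = σ l := by
          by_contra h6
          exact (e3.2 h6) h5
        rw [h5, h6]
      · exact beq_of_ne_ne h5 (e3.1 h5)
    have xk : x k = σ k := by
      have := (not_iff_not.2 (hxI k hk)).2 (by simp [hik.symm, hjk.symm])
      simpa using this
    have xa : x a = σ a := by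
      have := (not_iff_not.2 (hxI a haI)).2 (by simp [hia.symm, hja.symm])
      simpa using this
    have yk : y k ≠ σ k := (hyI k (Finset.mem_erase.2 ⟨hka, hk⟩)).2 (by simp)
    obtain ⟨z, hz, hzo, hzz⟩ := sq h I hk haI hka hx hy off (by rw [xk]; exact yk.symm)
      (by rw [xa]; exact hya.symm)
    have zo : ∀ l ∈ I, l ≠ k → l ≠ a → (z l ≠ σ l ↔ l ∈ ({i, j} : Finset ι)) := by
      intro l hl hlk hla
      rw [hzo l hl hlk hla]
      exact hxI l hl
    rcases hzz with ⟨h1, h4⟩ | ⟨h1, h4⟩
    · apply hC i hi j hj k hk hij hik hjk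
      refine ⟨z, hz, fun l hl => ?_⟩
      by_cases hlk : l = k
      · subst hlk; simpa [h1] using yk
      by_cases hla : l = a
      · subst hla; simp [h4, xa, hia.symm, hja.symm, hka.symm]
      have := zo l hl hlk hla
      rw [this]; simp [hlk]
    · apply hC i hi j hj a haI hij hia hja
      refine ⟨z, hz, fun l hl => ?_⟩
      by_cases hla : l = a
      · subst hla; simpa [h4] using hya
      by_cases hlk : l = k
      · subst hlk; simp [h1, xk, hik.symm, hjk.symm, hka]
      have := zo l hl hlk hla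
      rw [this]; simp [hla]

end Pool.Agent.Helper12K9.HC
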