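import Pool.Agent.Helper12K9.HC.Comb

namespace Pool.Agent.Helper12K9.HC

open Function

variable {ι : Type*} [DecidableEq ι] {V : Set (ι → Bool)}

/-- pair pattern realised -/
def P2 (V : Set (ι → Bool)) (i j : ι) (a b : Bool) : Prop := ∃ x ∈ V, x i = a ∧ x j = b

/-- triple pattern realised -/
def T3 (V : Set (ι → Bool)) (i j k : ι) (a b c : Bool) : Prop :=
  ∃ x ∈ V, x i = a ∧ x j = b ∧ x k = c

/-- crossing pair -/
def Cross (V : Set (ι → Bool)) (i j : ι) : Prop := i ≠ j ∧ ∀ a b, P2 V i j a b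

/-- pairwise crossing triple with an excluded pattern -/
def Ex (V : Set (ι → Bool)) (i j k : ι) (a b c : Bool) : Prop :=
  Cross V i j ∧ Cross V i k ∧ Cross V j k ∧ ¬ T3 V i j k a b c

/-- hexagonal triple -/
def Ht (V : Set (ι → Bool)) (i j k : ι) : Prop := ∃ a b c, Ex V i j k a b c

section basic
omit [DecidableEq ι]

theorem P2.symm {i j : ι} {a b : Bool} (h : P2 V i j a b) : P2 V j i b a := by
  obtain ⟨x, hx, h1, h2⟩ := h; exact ⟨x, hx, h2, h1⟩

theorem Cross.symm {i j : ι} (h : Cross V i j) : Cross V j i :=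
  ⟨h.1.symm, fun a b => (h.2 b a).symm⟩

theorem T3.s12 {i j k : ι} {a b c : Bool} (h : T3 V i j k a b c) : T3 V j i k b a c := by
  obtain ⟨x, hx, h1, h2, h3⟩ := h; exact ⟨x, hx, h2, h1, h3⟩

theorem T3.s23 {i j k : ι} {a b c : Bool} (h : T3 V i j k a b c) : T3 V i k j a c b := by
  obtain ⟨x, hx, h1, h2, h3⟩ := h; exact ⟨x, hx, h1, h3, h2⟩

theorem Ex.s12 {i j k : ι} {a b c : Bool} (h : Ex V i j k a b c) : Ex V j i k b a c :=
  ⟨h.1.symm, h.2.2.1, h.2.1, fun h' => h.2.2.2 h'.s12⟩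

theorem Ex.s23 {i j k : ι} {a b c : Bool} (h : Ex V i j k a b c) : Ex V i k j a c b :=
  ⟨h.2.1, h.1, h.2.2.1.symm, fun h' => h.2.2.2 h'.s23⟩

theorem Ht.s12 {i j k : ι} (h : Ht V i j k) : Ht V j i k := by
  obtain ⟨a, b, c, h⟩ := h; exact ⟨_, _, _, h.s12⟩

theorem Ht.s23 {i j k : ι} (h : Ht V i j k) : Ht V i k j := by
  obtain ⟨a, b, c, h⟩ := h; exact ⟨_, _, _, h.s23⟩

theorem Ht.c12 {i j k : ι} (h : Ht V i j k) : Cross V i j := by
  obtain ⟨a, b, c, h⟩ := h; exact h.1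

theorem Ht.c13 {i j k : ι} (h : Ht V i j k) : Cross V i k := by
  obtain ⟨a, b, c, h⟩ := h; exact h.2.1

theorem Ht.c23 {i j k : ι} (h : Ht V i j k) : Cross V j k := by
  obtain ⟨a, b, c, h⟩ := h; exact h.2.2.1

theorem not_cross {i j : ι} (hij : i ≠ j) (h : ¬ Cross V i j) : ∃ a b, ¬ P2 V i j a b := by
  by_contra hc
  push Not at hc
  exact h ⟨hij, hc⟩

end basic

theorem bnot_of_ne {a b : Bool} (h : a ≠ !b) : a = b := by revert a b; decide

variable [Fintype ι]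

/-- At most one pattern is missing on a pair. -/
theorem P2_other (h : HCSet V) {i j : ι} (hij : i ≠ j) {a b a' b' : Bool}
    (h1 : ¬ P2 V i j a b) (hne : ¬ (a' = a ∧ b' = b)) : P2 V i j a' b' := by
  by_contra h2
  by_cases ha : a' = a
  · have hb : b' = !b := beq_not fun hb => hne ⟨ha, hb⟩
    obtain ⟨x, hx, hxi⟩ := h.nonconst i a
    by_cases hxj : x j = b
    · exact h1 ⟨x, hx, hxi, hxj⟩
    · exact h2 ⟨x, hx, by rw [ha, hxi], by rw [hb]; exact beq_not hxj⟩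
  · have ha' : a' = !a := beq_not ha
    by_cases hb : b' = b
    · obtain ⟨x, hx, hxj⟩ := h.nonconst j b
      by_cases hxi : x i = a
      · exact h1 ⟨x, hx, hxi, hxj⟩
      · exact h2 ⟨x, hx, by rw [ha']; exact beq_not hxi, by rw [hb, hxj]⟩
    · have hb' : b' = !b := beq_not hb
      obtain ⟨x, hx, hxi⟩ := h.nonconst i a
      obtain ⟨y, hy, hyi⟩ := h.nonconst i (!a)
      have hxj : x j = !b := beq_not fun hb => h1 ⟨x, hx, hxi, hb⟩
      have hyj : y j = b := bnot_of_ne fun hb => h2 ⟨y, hy, by rw [ha', hyi], by rw [hb', hb]⟩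
      obtain ⟨z, hz, -, hzz⟩ := sq h {i, j} (by simp) (by simp) hij hx hy
        (by intro k hk h1 h2; simp at hk; tauto) (by rw [hxi, hyi]; simp) (by rw [hxj, hyj]; simp)
      rcases hzz with ⟨e1, e2⟩ | ⟨e1, e2⟩
      · exact h2 ⟨z, hz, by rw [ha', e1, hyi], by rw [hb', e2, hxj]⟩
      · exact h1 ⟨z, hz, by rw [e1, hxi], by rw [e2, hyj]⟩

/-- The triple lemma. -/
theorem tri (h : HCSet V) {i j k : ι} (hij : i ≠ j) (hik : i ≠ k) (hjk : j ≠ k) {a b c : Bool}
    (p1 : P2 V i j a b) (p2 : P2 V i k a c) (p3 : P2 V j k b c) (hn : ¬ T3 V i j k a b c) :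
    Ex V i j k a b c ∧ T3 V i j k (!a) b c ∧ T3 V i j k a (!b) c ∧ T3 V i j k a b (!c) ∧
      T3 V i j k (!a) (!b) c ∧ T3 V i j k (!a) b (!c) ∧ T3 V i j k a (!b) (!c) ∧
      ¬ T3 V i j k (!a) (!b) (!c) := by
  have s1 : T3 V i j k (!a) b c := by
    obtain ⟨x, hx, h1, h2⟩ := p3
    exact ⟨x, hx, beq_not fun h3 => hn ⟨x, hx, h3, h1, h2⟩, h1, h2⟩
  have s2 : T3 V i j k a (!b) c := by
    obtain ⟨x, hx, h1, h2⟩ := p2
    exact ⟨x, hx, h1, beq_not fun h3 => hn ⟨x, hx, h1, h3, h2⟩, h2⟩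
  have s3 : T3 V i j k a b (!c) := by
    obtain ⟨x, hx, h1, h2⟩ := p1
    exact ⟨x, hx, h1, h2, beq_not fun h3 => hn ⟨x, hx, h1, h2, h3⟩⟩
  have t1 : T3 V i j k (!a) (!b) c := by
    obtain ⟨x, hx, x1, x2, x3⟩ := s1
    obtain ⟨y, hy, y1, y2, y3⟩ := s2
    obtain ⟨z, hz, hzo, hzz⟩ := sq h {i, j, k} (i := i) (j := j) (by simp) (by simp) hij hx hy
      (by intro l hl h1 h2; simp at hl; rcases hl with rfl | rfl | rfl
          · exact absurd rfl h1
          · exact absurd rfl h2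
          · rw [x3, y3]) (by rw [x1, y1]; simp) (by rw [x2, y2]; simp)
    have z3 := hzo k (by simp) hik.symm hjk.symm
    rcases hzz with ⟨e1, e2⟩ | ⟨e1, e2⟩
    · exact absurd ⟨z, hz, by rw [e1, y1], by rw [e2, x2], by rw [z3, x3]⟩ hn
    · exact ⟨z, hz, by rw [e1, x1], by rw [e2, y2], by rw [z3, x3]⟩
  have t2 : T3 V i j k (!a) b (!c) := by
    obtain ⟨x, hx, x1, x2, x3⟩ := s1
    obtain ⟨y, hy, y1, y2, y3⟩ := s3
    obtain ⟨z, hz, hzo, hzz⟩ := sq h {i, j, k} (i := i) (j := k) (by simp) (by simp) hik hx hy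
      (by intro l hl h1 h2; simp at hl; rcases hl with rfl | rfl | rfl
          · exact absurd rfl h1
          · rw [x2, y2]
          · exact absurd rfl h2) (by rw [x1, y1]; simp) (by rw [x3, y3]; simp)
    have z3 := hzo j (by simp) hij.symm hjk
    rcases hzz with ⟨e1, e2⟩ | ⟨e1, e2⟩
    · exact absurd ⟨z, hz, by rw [e1, y1], by rw [z3, x2], by rw [e2, x3]⟩ hn
    · exact ⟨z, hz, by rw [e1, x1], by rw [z3, x2], by rw [e2, y3]⟩
  have t3 : T3 V i j k a (!b) (!c) := by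
    obtain ⟨x, hx, x1, x2, x3⟩ := s2
    obtain ⟨y, hy, y1, y2, y3⟩ := s3
    obtain ⟨z, hz, hzo, hzz⟩ := sq h {i, j, k} (i := j) (j := k) (by simp) (by simp) hjk hx hy
      (by intro l hl h1 h2; simp at hl; rcases hl with rfl | rfl | rfl
          · rw [x1, y1]
          · exact absurd rfl h1
          · exact absurd rfl h2) (by rw [x2, y2]; simp) (by rw [x3, y3]; simp)
    have z3 := hzo i (by simp) hij hik
    rcases hzz with ⟨e1, e2⟩ | ⟨e1, e2⟩
    · exact absurd ⟨z, hz, by rw [z3, x1], by rw [e1, y2], by rw [e2, x3]⟩ hn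
    · exact ⟨z, hz, by rw [z3, x1], by rw [e1, x2], by rw [e2, y3]⟩
  have hnn : ¬ T3 V i j k (!a) (!b) (!c) := by
    intro u
    apply hn
    set σ : ι → Bool := fun l => if l = i then a else if l = j then b else c with hσ
    have σi : σ i = a := by simp [hσ]
    have σj : σ j = b := by simp [hσ, hij.symm]
    have σk : σ k = c := by simp [hσ, hik.symm, hjk.symm]
    have := h.q7 ∅ i j k hij hik hjk (by simp) (by simp) (by simp) σ ?_
    · obtain ⟨x, hx, -, h1, h2, h3⟩ := this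
      exact ⟨x, hx, by rw [h1, σi], by rw [h2, σj], by rw [h3, σk]⟩
    · intro τ _ hτ
      rw [σi, σj, σk] at hτ
      have : T3 V i j k (τ i) (τ j) (τ k) := by
        by_cases e1 : τ i = a <;> by_cases e2 : τ j = b <;> by_cases e3 : τ k = c
        · tauto
        · rw [e1, e2, beq_not e3]; exact s3
        · rw [e1, beq_not e2, e3]; exact s2
        · rw [e1, beq_not e2, beq_not e3]; exact t3
        · rw [beq_not e1, e2, e3]; exact s1
        · rw [beq_not e1, e2, beq_not e3]; exact t2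
        · rw [beq_not e1, beq_not e2, e3]; exact t1
        · rw [beq_not e1, beq_not e2, beq_not e3]; exact u
      obtain ⟨x, hx, h1, h2, h3⟩ := this
      exact ⟨x, hx, by simp, h1, h2, h3⟩
  have c1 : Cross V i j := by
    refine ⟨hij, fun a' b' => ?_⟩
    by_cases e1 : a' = a <;> by_cases e2 : b' = b
    · rw [e1, e2]; exact p1
    · rw [e1, beq_not e2]; obtain ⟨x, hx, h1, h2, h3⟩ := s2; exact ⟨x, hx, h1, h2⟩
    · rw [beq_not e1, e2]; obtain ⟨x, hx, h1, h2, h3⟩ := s1; exact ⟨x, hx, h1, h2⟩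
    · rw [beq_not e1, beq_not e2]; obtain ⟨x, hx, h1, h2, h3⟩ := t1; exact ⟨x, hx, h1, h2⟩
  have c2 : Cross V i k := by
    refine ⟨hik, fun a' b' => ?_⟩
    by_cases e1 : a' = a <;> by_cases e2 : b' = c
    · rw [e1, e2]; exact p2
    · rw [e1, beq_not e2]; obtain ⟨x, hx, h1, h2, h3⟩ := s3; exact ⟨x, hx, h1, h3⟩
    · rw [beq_not e1, e2]; obtain ⟨x, hx, h1, h2, h3⟩ := s1; exact ⟨x, hx, h1, h3⟩
    · rw [beq_not e1, beq_not e2]; obtain ⟨x, hx, h1, h2, h3⟩ := t2; exact ⟨x, hx, h1, h3⟩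
  have c3 : Cross V j k := by
    refine ⟨hjk, fun a' b' => ?_⟩
    by_cases e1 : a' = b <;> by_cases e2 : b' = c
    · rw [e1, e2]; exact p3
    · rw [e1, beq_not e2]; obtain ⟨x, hx, h1, h2, h3⟩ := s3; exact ⟨x, hx, h2, h3⟩
    · rw [beq_not e1, e2]; obtain ⟨x, hx, h1, h2, h3⟩ := s2; exact ⟨x, hx, h2, h3⟩
    · rw [beq_not e1, beq_not e2]; obtain ⟨x, hx, h1, h2, h3⟩ := t3; exact ⟨x, hx, h2, h3⟩
  exact ⟨⟨c1, c2, c3, hn⟩, s1, s2, s3, t1, t2, t3, hnn⟩

/-- In a hexagonal triple every pattern other than the excluded one and its antipode occurs. -/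
theorem Ex.real (h : HCSet V) {i j k : ι} {a b c : Bool} (he : Ex V i j k a b c)
    {a' b' c' : Bool} (h1 : ¬ (a' = a ∧ b' = b ∧ c' = c))
    (h2 : ¬ (a' = !a ∧ b' = !b ∧ c' = !c)) : T3 V i j k a' b' c' := by
  obtain ⟨-, s1, s2, s3, t1, t2, t3, -⟩ := tri h he.1.1 he.2.1.1 he.2.2.1.1 (he.1.2 a b)
    (he.2.1.2 a c) (he.2.2.1.2 b c) he.2.2.2
  by_cases e1 : a' = a <;> by_cases e2 : b' = b <;> by_cases e3 : c' = c
  · tauto
  · rw [e1, e2, beq_not e3]; exact s3
  · rw [e1, beq_not e2, e3]; exact s2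
  · rw [e1, beq_not e2, beq_not e3]; exact t3
  · rw [beq_not e1, e2, e3]; exact s1
  · rw [beq_not e1, e2, beq_not e3]; exact t2
  · rw [beq_not e1, beq_not e2, e3]; exact t1
  · exact absurd ⟨beq_not e1, beq_not e2, beq_not e3⟩ h2

theorem Ex.neg (h : HCSet V) {i j k : ι} {a b c : Bool} (he : Ex V i j k a b c) :
    Ex V i j k (!a) (!b) (!c) := by
  obtain ⟨-, -, -, -, -, -, -, hn⟩ := tri h he.1.1 he.2.1.1 he.2.2.1.1 (he.1.2 a b)
    (he.2.1.2 a c) (he.2.2.1.2 b c) he.2.2.2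
  exact ⟨he.1, he.2.1, he.2.2.1, hn⟩

theorem Ex.unique (h : HCSet V) {i j k : ι} {a b c a' b' c' : Bool} (he : Ex V i j k a b c)
    (he' : ¬ T3 V i j k a' b' c') : (a' = a ∧ b' = b ∧ c' = c) ∨
      (a' = !a ∧ b' = !b ∧ c' = !c) := by
  by_contra hc
  push Not at hc
  exact he' (he.real h (fun h' => hc.1 h'.1 h'.2.1 h'.2.2) (fun h' => hc.2 h'.1 h'.2.1 h'.2.2))

theorem F4 (h : HCSet V) {i j k l : ι} (hij : i ≠ j) (hik : i ≠ k) (hil : i ≠ l) (hjk : j ≠ k)
    (hjl : j ≠ l) (hkl : k ≠ l) {a b c d : Bool} (h1 : T3 V i j k a b c)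
    (h2 : T3 V i j l a b d) (h3 : T3 V i k l a c d) (h4 : T3 V j k l b c d) :
    ∃ x ∈ V, x i = a ∧ x j = b ∧ x k = c ∧ x l = d := by
  set σ : ι → Bool := fun m => if m = i then a else if m = j then b else if m = k then c else d
    with hσ
  have σi : σ i = a := by simp [hσ]
  have σj : σ j = b := by simp [hσ, hij.symm]
  have σk : σ k = c := by simp [hσ, hik.symm, hjk.symm]
  have σl : σ l = d := by simp [hσ, hil.symm, hjl.symm, hkl.symm]
  -- every three of the four are realised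
  have key : ∀ m ∈ ({i, j, k, l} : Finset ι), ∃ x ∈ V, ∀ n ∈ ({i, j, k, l} : Finset ι),
      n ≠ m → x n = σ n := by
    intro m hm
    simp only [Finset.mem_insert, Finset.mem_singleton] at hm
    rcases hm with rfl | rfl | rfl | rfl
    · obtain ⟨x, hx, e1, e2, e3⟩ := h4
      refine ⟨x, hx, ?_⟩
      intro n hn hnm
      simp only [Finset.mem_insert, Finset.mem_singleton] at hn
      rcases hn with rfl | rfl | rfl | rfl
      · exact absurd rfl hnm
      · rw [e1, σj]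
      · rw [e2, σk]
      · rw [e3, σl]
    · obtain ⟨x, hx, e1, e2, e3⟩ := h3
      refine ⟨x, hx, ?_⟩
      intro n hn hnm
      simp only [Finset.mem_insert, Finset.mem_singleton] at hn
      rcases hn with rfl | rfl | rfl | rfl
      · rw [e1, σi]
      · exact absurd rfl hnm
      · rw [e2, σk]
      · rw [e3, σl]
    · obtain ⟨x, hx, e1, e2, e3⟩ := h2
      refine ⟨x, hx, ?_⟩
      intro n hn hnm
      simp only [Finset.mem_insert, Finset.mem_singleton] at hn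
      rcases hn with rfl | rfl | rfl | rfl
      · rw [e1, σi]
      · rw [e2, σj]
      · exact absurd rfl hnm
      · rw [e3, σl]
    · obtain ⟨x, hx, e1, e2, e3⟩ := h1
      refine ⟨x, hx, ?_⟩
      intro n hn hnm
      simp only [Finset.mem_insert, Finset.mem_singleton] at hn
      rcases hn with rfl | rfl | rfl | rfl
      · rw [e1, σi]
      · rw [e2, σj]
      · rw [e3, σk]
      · exact absurd rfl hnm
  have hcard : ({i, j, k, l} : Finset ι).card = 4 := by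
    rw [Finset.card_insert_of_notMem, Finset.card_insert_of_notMem, Finset.card_insert_of_notMem,
      Finset.card_singleton] <;> simp_all
  have miss : ∀ T : Finset ι, T.card ≤ 3 → ∃ m ∈ ({i, j, k, l} : Finset ι), m ∉ T := by
    intro T hT
    by_contra hc
    push Not at hc
    have := Finset.card_le_card (show ({i, j, k, l} : Finset ι) ⊆ T from hc)
    omega
  have g2 : ∀ p ∈ ({i, j, k, l} : Finset ι), ∀ q ∈ ({i, j, k, l} : Finset ι),
      ∃ x ∈ V, x p = σ p ∧ x q = σ q := by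
    intro p hp q hq
    obtain ⟨m, hm, hmT⟩ := miss {p, q} ((Finset.card_le_two).trans (by norm_num))
    obtain ⟨x, hx, hxm⟩ := key m hm
    simp only [Finset.mem_insert, Finset.mem_singleton, not_or] at hmT
    exact ⟨x, hx, hxm p hp (Ne.symm hmT.1), hxm q hq (Ne.symm hmT.2)⟩
  have g3 : ∀ p ∈ ({i, j, k, l} : Finset ι), ∀ q ∈ ({i, j, k, l} : Finset ι),
      ∀ r ∈ ({i, j, k, l} : Finset ι), p ≠ q → p ≠ r → q ≠ r →
      ∃ x ∈ V, x p = σ p ∧ x q = σ q ∧ x r = σ r := by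
    intro p hp q hq r hr _ _ _
    obtain ⟨m, hm, hmT⟩ := miss {p, q, r} Finset.card_le_three
    obtain ⟨x, hx, hxm⟩ := key m hm
    simp only [Finset.mem_insert, Finset.mem_singleton, not_or] at hmT
    exact ⟨x, hx, hxm p hp (Ne.symm hmT.1), hxm q hq (Ne.symm hmT.2.1),
      hxm r hr (Ne.symm hmT.2.2)⟩
  obtain ⟨x, hx, hxI⟩ := F3 h σ {i, j, k, l} g2 g3
  exact ⟨x, hx, by rw [hxI i (by simp), σi], by rw [hxI j (by simp), σj],
      by rw [hxI k (by simp), σk], by rw [hxI l (by simp), σl]⟩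

omit [DecidableEq ι] [Fintype ι] in
theorem Ht.of_cross' {i j k : ι} (c1 : Cross V i j) (c2 : Cross V i k)
    (c3 : Cross V j k) {a b c : Bool} (hn : ¬ T3 V i j k a b c) : Ht V i j k :=
  ⟨a, b, c, c1, c2, c3, hn⟩

/-- First line lemma. -/
theorem L4 (h : HCSet V) {i j k l : ι} (h1 : Ht V i j k) (h2 : Ht V i j l) (hkl : k ≠ l) :
    Ht V i k l := by
  obtain ⟨a, b, c, e1⟩ := h1
  suffices H : ∀ b' d, Ex V i j l a b' d → Ht V i k l by
    obtain ⟨a', b', d, e2⟩ := h2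
    by_cases ha : a' = a
    · subst ha; exact H _ _ e2
    · have := e2.neg h
      rw [beq_not ha, Bool.not_not] at this
      exact H _ _ this
  intro b' d e2
  have hij := e1.1
  have hik := e1.2.1
  have hjk := e1.2.2.1
  have hil := e2.2.1
  have hjl := e2.2.2.1
  have n1 := e1.2.2.2
  have n1' := (e1.neg h).2.2.2
  have n2 := e2.2.2.2
  have n2' := (e2.neg h).2.2.2
  by_cases hb : b' = b
  · -- case A
    subst hb
    -- either (i k l) or (j k l) is hexagonal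
    have main : ∀ κ lam : Bool, ¬ (κ = c ∧ lam = d) → ¬ (κ = !c ∧ lam = !d) →
        ¬ (T3 V i k l a κ lam ∧ T3 V j k l (!b') κ lam ∧ T3 V i k l (!a) κ lam ∧
          T3 V j k l b' κ lam) := by
      rintro κ lam m1 m2 ⟨t1, t2, t3, t4⟩
      have f1 : ∃ x ∈ V, x i = a ∧ x j = (!b') ∧ x k = κ ∧ x l = lam :=
        F4 h hij.1 hik.1 hil.1 hjk.1 hjl.1 hkl
          (e1.real h (by simp) (by simp)) (e2.real h (by simp) (by simp)) t1 t2
      have f2 : ∃ x ∈ V, x i = (!a) ∧ x j = b' ∧ x k = κ ∧ x l = lam :=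
        F4 h hij.1 hik.1 hil.1 hjk.1 hjl.1 hkl
          (e1.real h (by simp) (by simp)) (e2.real h (by simp) (by simp)) t3 t4
      obtain ⟨x, hx, x1, x2, x3, x4⟩ := f1
      obtain ⟨y, hy, y1, y2, y3, y4⟩ := f2
      obtain ⟨z, hz, hzo, hzz⟩ := sq h {i, j, k, l} (i := i) (j := j) (by simp) (by simp) hij.1 hx hy
        (by intro m hm g1 g2
            simp only [Finset.mem_insert, Finset.mem_singleton] at hm
            rcases hm with rfl | rfl | rfl | rfl
            · exact absurd rfl g1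
            · exact absurd rfl g2
            · rw [x3, y3]
            · rw [x4, y4]) (by rw [x1, y1]; simp) (by rw [x2, y2]; simp)
      have z3 := hzo k (by simp) hik.1.symm hjk.1.symm
      have z4 := hzo l (by simp) hil.1.symm hjl.1.symm
      rw [x3] at z3
      rw [x4] at z4
      rcases hzz with ⟨g1, g2⟩ | ⟨g1, g2⟩
      · rw [y1] at g1
        rw [x2] at g2
        refine m1 ⟨?_, ?_⟩
        · by_contra hk; exact n1' ⟨z, hz, g1, g2, by rw [z3]; exact beq_not hk⟩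
        · by_contra hl; exact n2' ⟨z, hz, g1, g2, by rw [z4]; exact beq_not hl⟩
      · rw [x1] at g1
        rw [y2] at g2
        refine m2 ⟨?_, ?_⟩
        · exact beq_not fun hk => n1 ⟨z, hz, g1, g2, by rw [z3]; exact hk⟩
        · exact beq_not fun hl => n2 ⟨z, hz, g1, g2, by rw [z4]; exact hl⟩
    -- a mixed pattern is realised on k,l
    have q1 : P2 V k l (!c) (!d) := by
      obtain ⟨x, hx, x1, x2⟩ := hij.2 a b'
      exact ⟨x, hx, beq_not fun hk => n1 ⟨x, hx, x1, x2, hk⟩,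
        beq_not fun hl => n2 ⟨x, hx, x1, x2, hl⟩⟩
    have q2 : P2 V k l c d := by
      obtain ⟨x, hx, x1, x2⟩ := hij.2 (!a) (!b')
      exact ⟨x, hx, bnot_of_ne fun hk => n1' ⟨x, hx, x1, x2, hk⟩,
        bnot_of_ne fun hl => n2' ⟨x, hx, x1, x2, hl⟩⟩
    have mixed : ∃ κ lam : Bool, ¬ (κ = c ∧ lam = d) ∧ ¬ (κ = !c ∧ lam = !d) ∧ P2 V k l κ lam := by
      obtain ⟨x, hx, x1, x2⟩ := q1
      obtain ⟨y, hy, y1, y2⟩ := q2
      obtain ⟨z, hz, -, hzz⟩ := sq h {k, l} (i := k) (j := l) (by simp) (by simp) hkl hx hy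
        (by intro m hm h1 h2; simp at hm; tauto) (by rw [x1, y1]; simp) (by rw [x2, y2]; simp)
      rcases hzz with ⟨g1, g2⟩ | ⟨g1, g2⟩
      · exact ⟨c, !d, by simp, by simp, z, hz, by rw [g1, y1], by rw [g2, x2]⟩
      · exact ⟨!c, d, by simp, by simp, z, hz, by rw [g1, x1], by rw [g2, y2]⟩
    obtain ⟨κ, lam, m1, m2, hP⟩ := mixed
    have hne := main κ lam m1 m2
    by_cases k1 : T3 V i k l a κ lam
    swap
    · exact ⟨_, _, _, (tri h hik.1 hil.1 hkl (hik.2 _ _) (hil.2 _ _) hP k1).1⟩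
    by_cases k3 : T3 V i k l (!a) κ lam
    swap
    · exact ⟨_, _, _, (tri h hik.1 hil.1 hkl (hik.2 _ _) (hil.2 _ _) hP k3).1⟩
    have hj : ∃ β, Ex V j k l β κ lam := by
      by_cases k2 : T3 V j k l (!b') κ lam
      · by_cases k4 : T3 V j k l b' κ lam
        · exact absurd ⟨k1, k2, k3, k4⟩ hne
        · exact ⟨_, (tri h hjk.1 hjl.1 hkl (hjk.2 _ _) (hjl.2 _ _) hP k4).1⟩
      · exact ⟨_, (tri h hjk.1 hjl.1 hkl (hjk.2 _ _) (hjl.2 _ _) hP k2).1⟩
    obtain ⟨β, e3⟩ := hj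
    -- normalise so that the excluded pattern has first entry b'
    have e4 : ∃ κ lam : Bool, ¬ (κ = c ∧ lam = d) ∧ ¬ (κ = !c ∧ lam = !d) ∧
        Ex V j k l b' κ lam := by
      by_cases hβ : β = b'
      · subst hβ; exact ⟨κ, lam, m1, m2, e3⟩
      · have := e3.neg h
        rw [beq_not hβ, Bool.not_not] at this
        refine ⟨!κ, !lam, ?_, ?_, this⟩
        · rintro ⟨g1, g2⟩; exact m2 ⟨by rw [← g1, Bool.not_not], by rw [← g2, Bool.not_not]⟩
        · rintro ⟨g1, g2⟩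
          exact m1 ⟨by simpa using g1, by simpa using g2⟩
    obtain ⟨κ, lam, m1, m2, e5⟩ := e4
    have hkl' := e5.2.2.1
    have n5' := (e5.neg h).2.2.2
    refine Ht.of_cross' (a := a) (b := !κ) (c := !lam) hik hil hkl' ?_
    rintro ⟨x, hx, x1, x2, x3⟩
    have xj : x j = !b' := by
      apply beq_not
      intro xj
      by_cases hk : κ = c
      · have hl : lam = !d := beq_not fun hl => m1 ⟨hk, hl⟩
        exact n2 ⟨x, hx, x1, xj, by rw [x3, hl, Bool.not_not]⟩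
      · exact n1 ⟨x, hx, x1, xj, by rw [x2, beq_not hk, Bool.not_not]⟩
    exact n5' ⟨x, hx, xj, x2, x3⟩
  · -- case B
    have hb' : b' = !b := beq_not hb
    subst hb'
    have hc : Cross V k l := by
      refine ⟨hkl, fun κ lam => ?_⟩
      by_cases hκ : κ = c
      · obtain ⟨x, hx, x1, x2, x3⟩ := e2.real h (a' := !a) (b' := !b) (c' := lam) (by simp)
          (by simp)
        refine ⟨x, hx, ?_, x3⟩
        rw [hκ]
        exact bnot_of_ne fun hk => n1' ⟨x, hx, x1, x2, hk⟩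
      · obtain ⟨x, hx, x1, x2, x3⟩ := e2.real h (a' := a) (b' := b) (c' := lam) (by simp)
          (by simp)
        refine ⟨x, hx, ?_, x3⟩
        rw [beq_not hκ]
        exact beq_not fun hk => n1 ⟨x, hx, x1, x2, hk⟩
    refine Ht.of_cross' (a := a) (b := c) (c := d) hik hil hc ?_
    rintro ⟨x, hx, x1, x2, x3⟩
    by_cases hxj : x j = b
    · exact n1 ⟨x, hx, x1, hxj, x2⟩
    · exact n2 ⟨x, hx, x1, beq_not hxj, x3⟩

theorem L5 (h : HCSet V) {i a a' c : ι} (h1 : Ht V i a a') (hca : c ≠ a')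
    (hn : ¬ Cross V c a') (k1 : Cross V c i) (k2 : Cross V c a) : False := by
  have hh := h1
  obtain ⟨x, y, z, e⟩ := h1
  by_cases hall : ∀ p q r, T3 V i a c p q r
  · obtain ⟨γ, α, hP⟩ := not_cross hca hn
    have n := e.2.2.2
    have n' := (e.neg h).2.2.2
    by_cases hα : α = z
    · obtain ⟨w, hw, w1, w2, w3⟩ := hall (!x) (!y) γ
      exact hP ⟨w, hw, w3, by rw [hα]; exact bnot_of_ne fun h' => n' ⟨w, hw, w1, w2, h'⟩⟩
    · obtain ⟨w, hw, w1, w2, w3⟩ := hall x y γ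
      exact hP ⟨w, hw, w3, by
        rw [beq_not hα]; exact beq_not fun h' => n ⟨w, hw, w1, w2, h'⟩⟩
  · push Not at hall
    obtain ⟨p, q, r, hpqr⟩ := hall
    have : Ht V i a c := Ht.of_cross' e.1 k1.symm k2.symm hpqr
    exact hn (L4 h hh this hca.symm).c23.symm

theorem L6 (h : HCSet V) {i a a' c c' : ι} (h1 : Ht V i a a') (h2 : Ht V i c c')
    (h3 : ¬ Ht V i a c) (hac : a ≠ c) : ¬ Cross V a c := by
  intro k1
  have d1 : a ≠ c' := by rintro rfl; exact h3 h2.s23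
  have k2 : Cross V a c' := by
    by_contra hk
    exact L5 h h2 d1 hk h1.c12.symm k1
  have d2 : a' ≠ c := by rintro rfl; exact h3 h1
  have k3 : Cross V a' c := by
    by_contra hk
    exact L5 h h1 d2.symm (fun h' => hk h'.symm) h2.c12.symm k1.symm
  have d3 : a' ≠ c' := by
    rintro rfl
    exact h3 (L4 h h1.s23 h2.s23 hac)
  have k4 : Cross V a' c' := by
    by_contra hk
    exact L5 h h2 d3 hk h1.c13.symm k3
  obtain ⟨x, y, z, e1⟩ := h1
  suffices H : ∀ y' z', Ex V i c c' x y' z' → False by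
    obtain ⟨x', y', z', e2⟩ := h2
    by_cases ha : x' = x
    · subst ha; exact H _ _ e2
    · have := e2.neg h
      rw [beq_not ha, Bool.not_not] at this
      exact H _ _ this
  intro y' z' e2
  have h1 : Ht V i a a' := ⟨_, _, _, e1⟩
  have h2 : Ht V i c c' := ⟨_, _, _, e2⟩
  have nr : ¬ ∃ w ∈ V, w a = y ∧ w a' = z ∧ w c = (!y') ∧ w c' = (!z') := by
    rintro ⟨w, hw, w1, w2, w3, w4⟩
    by_cases hwi : w i = x
    · exact e1.2.2.2 ⟨w, hw, hwi, w1, w2⟩
    · exact (e2.neg h).2.2.2 ⟨w, hw, beq_not hwi, w3, w4⟩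
  apply nr
  have caa := h1.c23
  have ccc := h2.c23
  apply F4 h caa.1 hac d1 d2 d3 ccc.1
  · by_contra hn
    have := Ht.of_cross' caa k1 k3 hn
    exact h3 (L4 h h1.s12.s23 this h2.c12.1).s12
  · by_contra hn
    have := Ht.of_cross' caa k2 k4 hn
    exact h3 (L4 h (L4 h h1.s12.s23 this h2.c13.1).s12.s23 h2.s23 hac)
  · by_contra hn
    have := Ht.of_cross' k1 k2 ccc hn
    exact h3 (L4 h h2.s12.s23 this.s12.s23 h1.c12.1).s12.s23
  · by_contra hn
    have := Ht.of_cross' k3 k4 ccc hn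
    exact h3 (L4 h h1.s23 (L4 h h2.s12.s23 this.s12.s23 h1.c13.1).s12.s23 hac)

end Pool.Agent.Helper12K9.HC
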