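import Pool.Agent.Helper12K9.HC.Comb2

namespace Pool.Agent.Helper12K9.HC

open Function

variable {ι : Type*} [DecidableEq ι] {V : Set (ι → Bool)}

/-- At the vertex `v`, the halfspace of `i` containing `v` is properly inside that of `j`. -/
def Nv (V : Set (ι → Bool)) (v : ι → Bool) (i j : ι) : Prop := i ≠ j ∧ ¬ P2 V i j (v i) (!v j)

/-- `b` is far in the hexagonal triple `a, a', b` at the vertex `v`. -/
def Far (V : Set (ι → Bool)) (v : ι → Bool) (b a a' : ι) : Prop :=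
  Ex V a a' b (v a) (v a') (!v b)

omit [DecidableEq ι] in
theorem Far.symm {v : ι → Bool} {b a a' : ι} (h : Far V v b a a') : Far V v b a' a := h.s12

omit [DecidableEq ι] in
theorem Far.ht {v : ι → Bool} {b a a' : ι} (h : Far V v b a a') : Ht V a a' b := ⟨_, _, _, h⟩

variable [Fintype ι]

omit [DecidableEq ι] [Fintype ι] in
theorem aux1 {j e a' : ι} {α : Bool} {γ₀ : Bool} (hc : ¬ Cross V j e) (hje : j ≠ e)
    (hr : ∀ δ, P2 V j e γ₀ δ) (hx : Cross V e a') (hn : ¬ P2 V j a' γ₀ α) : False := by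
  obtain ⟨γ, δ, hP⟩ := not_cross hje hc
  have hγ : γ = !γ₀ := beq_not fun h' => hP (h' ▸ hr δ)
  obtain ⟨y, hy, y1, y2⟩ := hx.2 δ α
  by_cases hyj : y j = γ₀
  · exact hn ⟨y, hy, hyj, y2⟩
  · exact hP ⟨y, hy, by rw [hγ]; exact beq_not hyj, y1⟩

/-- (*) -/
theorem Nv_far (h : HCSet V) {v : ι → Bool} (hv : v ∈ V) {b a a' j : ι} (hf : Far V v b a a')
    (hj : Nv V v j a') : Nv V v j b := by
  have caa := hf.1
  have cab := hf.2.1
  have cab' := hf.2.2.1
  have hjb : j ≠ b := by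
    rintro rfl
    exact hj.2 (cab'.symm.2 _ _)
  refine ⟨hjb, ?_⟩
  rintro ⟨x, hx, x1, x2⟩
  have xa' : x a' = v a' := bnot_of_ne fun h' => hj.2 ⟨x, hx, x1, h'⟩
  have xa : x a = !v a := beq_not fun h' => hf.2.2.2 ⟨x, hx, h', xa', x2⟩
  have hja : j ≠ a := by
    rintro rfl
    exact hj.2 (caa.2 _ _)
  have hnc : ¬ Cross V j a' := fun h' => hj.2 (h'.2 _ _)
  by_cases k1 : Cross V j a
  · by_cases k2 : Cross V j b
    · exact L5 h (i := a) (a := b) (a' := a') hf.ht.s23 hj.1 hnc k1 k2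
    · refine aux1 k2 hjb ?_ cab'.symm hj.2
      intro δ
      by_cases hδ : δ = v b
      · exact ⟨v, hv, rfl, hδ.symm⟩
      · exact ⟨x, hx, x1, by rw [x2, beq_not hδ]⟩
  · refine aux1 k1 hja ?_ caa hj.2
    intro δ
    by_cases hδ : δ = v a
    · exact ⟨v, hv, rfl, hδ.symm⟩
    · exact ⟨x, hx, x1, by rw [xa, beq_not hδ]⟩

/-- (**) -/
theorem Nv_of_far (h : HCSet V) {v : ι → Bool} (hv : v ∈ V) {b a a' i : ι} (hf : Far V v b a a')
    (hi : Nv V v i b) : Nv V v i a ∨ Nv V v i a' := by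
  have aux : ∀ e e' : ι, Far V v b e e' → ¬ Cross V i e → Nv V v i e := by
    intro e e' hf hc
    have hie : i ≠ e := by
      rintro rfl
      exact hi.2 (hf.2.1.2 _ _)
    refine ⟨hie, ?_⟩
    obtain ⟨γ, δ, hP⟩ := not_cross hie hc
    have hγ : γ = v i := by
      by_contra hγ
      obtain ⟨y, hy, y1, y2⟩ := hf.2.1.2 δ (!v b)
      by_cases hyi : y i = v i
      · exact hi.2 ⟨y, hy, hyi, y2⟩
      · exact hP ⟨y, hy, by rw [beq_not hγ]; exact beq_not hyi, y1⟩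
    have hδ : δ = !v e := by
      apply beq_not
      intro hδ
      exact hP ⟨v, hv, hγ.symm, hδ.symm⟩
    rw [hγ, hδ] at hP
    exact hP
  have hnc : ¬ Cross V i b := fun h' => hi.2 (h'.2 _ _)
  by_cases k1 : Cross V i a
  · by_cases k2 : Cross V i a'
    · exact absurd (L5 h hf.ht hi.1 hnc k1 k2) not_false
    · exact Or.inr (aux a' a hf.symm k2)
  · exact Or.inl (aux a a' hf k1)

theorem Nv.asymm (h : HCSet V) {v : ι → Bool} {i j : ι} (h1 : Nv V v i j) : ¬ Nv V v j i := by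
  intro h2
  apply h1.2
  refine (P2_other h h1.1.symm h2.2 ?_).symm
  rintro ⟨e, -⟩
  simp at e

theorem Nv.trans (h : HCSet V) {v : ι → Bool} {i j k : ι} (h1 : Nv V v i j) (h2 : Nv V v j k) :
    Nv V v i k := by
  refine ⟨?_, ?_⟩
  · rintro rfl
    exact h1.asymm h h2
  · rintro ⟨x, hx, x1, x2⟩
    by_cases hxj : x j = v j
    · exact h2.2 ⟨x, hx, hxj, x2⟩
    · exact h1.2 ⟨x, hx, x1, beq_not hxj⟩

/-- far in at most one line -/
theorem far_one (h : HCSet V) {v : ι → Bool} (hv : v ∈ V) {b a a' e e' : ι}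
    (h1 : Far V v b a a') (h2 : Far V v b e e') (n1 : ¬ Ht V b a e) (n2 : ¬ Ht V b a e')
    (d1 : a ≠ e) (d2 : a ≠ e') : False := by
  have key : ∀ a a' e e' : ι, Far V v b a a' → Far V v b e e' → ¬ Ht V b a e → a ≠ e →
      ¬ P2 V a e (!v a) (!v e) := by
    intro a a' e e' h1 h2 n d
    have hc : ¬ Cross V a e := L6 h h1.ht.s23.s12 h2.ht.s23.s12 n d
    obtain ⟨γ, δ, hP⟩ := not_cross d hc
    by_cases hγ : γ = v a
    · by_cases hδ : δ = v e
      · exact absurd ⟨v, hv, hγ.symm, hδ.symm⟩ hP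
      · exfalso
        have : Nv V v a e := ⟨d, by rw [hγ, beq_not hδ] at hP; exact hP⟩
        exact (Nv_far h hv h2.symm this).2 (h1.2.1.2 _ _)
    · by_cases hδ : δ = v e
      · exfalso
        have : Nv V v e a := ⟨d.symm, fun hp => hP (by rw [beq_not hγ, hδ]; exact hp.symm)⟩
        exact (Nv_far h hv h1.symm this).2 (h2.2.1.2 _ _)
      · rw [beq_not hγ, beq_not hδ] at hP; exact hP
  have p1 := key a a' e e' h1 h2 n1 d1
  have p2 := key a a' e' e h1 h2.symm n2 d2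
  obtain ⟨x, hx, x1, x2⟩ := h1.1.2 (!v a) (!v a')
  have xe : x e = v e := bnot_of_ne fun h' => p1 ⟨x, hx, x1, h'⟩
  have xe' : x e' = v e' := bnot_of_ne fun h' => p2 ⟨x, hx, x1, h'⟩
  have hn := (h1.neg h).2.2.2
  rw [Bool.not_not] at hn
  have xb : x b = !v b := beq_not fun h' => hn ⟨x, hx, x1, x2, h'⟩
  exact h2.2.2.2 ⟨x, hx, xe, xe', xb⟩

/-- (***) -/
theorem far_drop (h : HCSet V) {v : ι → Bool} (hv : v ∈ V) {b p q e e' : ι}
    (h1 : Far V v b p q) (h2 : Far V v p e e') (n1 : ¬ Ht V p b e) (n2 : ¬ Ht V p b e')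
    (d1 : b ≠ e) (d2 : b ≠ e') : Nv V v e b ∨ Nv V v e' b := by
  by_contra hcon
  push Not at hcon
  have key : ∀ e e' : ι, Far V v p e e' → ¬ Ht V p b e → b ≠ e → ¬ Nv V v e b →
      ¬ P2 V b e (!v b) (!v e) := by
    intro e e' h2 n d hN
    have hc : ¬ Cross V b e := L6 h h1.ht.s23 h2.ht.s23.s12 n d
    obtain ⟨γ, δ, hP⟩ := not_cross d hc
    by_cases hγ : γ = v b
    · by_cases hδ : δ = v e
      · exact absurd ⟨v, hv, hγ.symm, hδ.symm⟩ hP
      · exfalso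
        have : Nv V v b e := ⟨d, by rw [hγ, beq_not hδ] at hP; exact hP⟩
        exact (Nv_far h hv h2.symm this).2 (h1.2.1.symm.2 _ _)
    · by_cases hδ : δ = v e
      · exfalso
        exact hN ⟨d.symm, fun hp => hP (by rw [beq_not hγ, hδ]; exact hp.symm)⟩
      · rw [beq_not hγ, beq_not hδ] at hP; exact hP
  have p1 := key e e' h2 n1 d1 hcon.1
  have p2 := key e' e h2.symm n2 d2 hcon.2
  obtain ⟨x, hx, x1, x2⟩ := h1.2.1.2 (!v p) (!v b)
  have xe : x e = v e := bnot_of_ne fun h' => p1 ⟨x, hx, x2, h'⟩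
  have xe' : x e' = v e' := bnot_of_ne fun h' => p2 ⟨x, hx, x2, h'⟩
  exact h2.2.2.2 ⟨x, hx, xe, xe', x1⟩

end Pool.Agent.Helper12K9.HC
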