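import Mathlib

/-!
Definitions for the problem on hypercellular graphs and tope graphs of hyperplane arrangements.
-/

namespace Pool.Agent.Helper12K9.HC

universe u

/-- A set `s` of vertices of `G` is convex: it contains every vertex of every shortest walk of `G`
joining two of its members. The corresponding convex subgraph is the induced one. -/
def IsConvexSet {V : Type u} (G : SimpleGraph V) (s : Set V) : Prop :=
  ∀ x ∈ s, ∀ y ∈ s, ∀ p : G.Walk x y, p.length = G.dist x y → ∀ z ∈ p.support, z ∈ s

/-- A partial cube: a connected graph with an isometric embedding into a hypercube `{0,1}^n`,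
whose shortest-path metric is the Hamming distance. -/
def IsPartialCube {V : Type u} (G : SimpleGraph V) : Prop :=
  G.Connected ∧ ∃ (n : ℕ) (φ : V → (Fin n → Bool)), ∀ x y, G.dist x y = hammingDist (φ x) (φ y)

/-- The Djokovic–Winkler relation between the edges `uv` and `xy`. -/
def Theta {V : Type u} (G : SimpleGraph V) (u v x y : V) : Prop :=
  G.dist u x + G.dist v y ≠ G.dist u y + G.dist v x

/-- `x` and `y` are the ends of an edge in the `Θ`-class of the edge `uv`. -/
def ContrRel {V : Type u} (G : SimpleGraph V) (u v x y : V) : Prop :=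
  G.Adj x y ∧ Theta G u v x y

/-- The graph obtained from `G` by contracting all the edges in the `Θ`-class of `uv`: the
vertices are the classes of the equivalence relation generated by `ContrRel G u v`, and two
different classes are adjacent when some edge of `G` joins them. -/
def contractTheta {V : Type u} (G : SimpleGraph V) (u v : V) :
    SimpleGraph (Quot (ContrRel G u v)) where
  Adj a b := a ≠ b ∧ ∃ x y, Quot.mk _ x = a ∧ Quot.mk _ y = b ∧ G.Adj x y
  symm := ⟨fun _ _ ⟨hne, x, y, hx, hy, hxy⟩ => ⟨hne.symm, y, x, hy, hx, hxy.symm⟩⟩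
  loopless := ⟨fun _ h => h.1 rfl⟩

/-- `PCMinor G W H`: the graph `H` on the vertex type `W` is obtained from `G` by a finite
sequence of contractions of `Θ`-classes and passages to (nonempty) convex subgraphs. -/
inductive PCMinor {V : Type u} (G : SimpleGraph V) : (W : Type u) → SimpleGraph W → Prop
  | refl : PCMinor G V G
  | contract {W : Type u} {H : SimpleGraph W} (h : PCMinor G W H) (x y : W) (hxy : H.Adj x y) :
      PCMinor G (Quot (ContrRel H x y)) (contractTheta H x y)
  | convex {W : Type u} {H : SimpleGraph W} (h : PCMinor G W H) (s : Set W) (hne : s.Nonempty)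
      (hs : IsConvexSet H s) : PCMinor G s (H.induce s)

/-- The 3-cube with one vertex deleted. -/
def Q3minus : SimpleGraph {x : Fin 3 → Bool // x ≠ fun _ => true} where
  Adj x y := hammingDist x.1 y.1 = 1
  symm := ⟨fun x y h => by rw [hammingDist_comm]; exact h⟩
  loopless := ⟨fun x h => by simp at h⟩

/-- Hypercellular graphs: partial cubes none of whose pc-minors is isomorphic to `Q3minus`. -/
def IsHypercellular {V : Type u} (G : SimpleGraph V) : Prop :=
  IsPartialCube G ∧ ∀ (W : Type u) (H : SimpleGraph W), PCMinor G W H →
    ¬ Nonempty (H ≃g Q3minus)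

/-- The points of `ℝ^d` on none of the hyperplanes of `A`. -/
def Compl {d : ℕ} (A : Finset (Submodule ℝ (EuclideanSpace ℝ (Fin d)))) :
    Set (EuclideanSpace ℝ (Fin d)) := {x | ∀ H ∈ A, x ∉ H}

/-- The regions of the arrangement `A`: the connected components of the complement. -/
abbrev Region {d : ℕ} (A : Finset (Submodule ℝ (EuclideanSpace ℝ (Fin d)))) : Type :=
  ConnectedComponents (Compl A)

/-- The hyperplane `H` separates the regions `R` and `S`: every segment from a point of `R` to a
point of `S` meets `H`. -/
def Separates {d : ℕ} {A : Finset (Submodule ℝ (EuclideanSpace ℝ (Fin d)))}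
    (H : Submodule ℝ (EuclideanSpace ℝ (Fin d))) (R S : Region A) : Prop :=
  ∀ x y : Compl A, ConnectedComponents.mk x = R → ConnectedComponents.mk y = S →
    (segment ℝ (x : EuclideanSpace ℝ (Fin d)) y ∩ (H : Set (EuclideanSpace ℝ (Fin d)))).Nonempty

/-- The tope graph of the arrangement `A`: its vertices are the regions, and two different
regions are adjacent when exactly one hyperplane of `A` separates them. -/
def topeGraph {d : ℕ} (A : Finset (Submodule ℝ (EuclideanSpace ℝ (Fin d)))) :
    SimpleGraph (Region A) where
  Adj R S := R ≠ S ∧ ∃! H, H ∈ A ∧ Separates H R S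
  symm := ⟨by
    rintro R S ⟨hne, H, ⟨hH, hs⟩, huniq⟩
    refine ⟨hne.symm, H, ⟨hH, fun x y hx hy => ?_⟩, fun H' ⟨hH', hs'⟩ => huniq H' ⟨hH', ?_⟩⟩
    · rw [segment_symm]; exact hs y x hy hx
    · intro x y hx hy
      rw [segment_symm]; exact hs' y x hy hx⟩
  loopless := ⟨fun _ h => h.1 rfl⟩

end Pool.Agent.Helper12K9.HC
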