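import Pool.Agent.Helper12K9.HC.Minor
import Pool.Agent.Helper12K9.HC.Assemble

namespace Pool.Agent.Helper12K9.HC

open Function

universe u

variable {ι : Type} [Fintype ι] [DecidableEq ι]

theorem Lab.faces {V : Type u} {G : SimpleGraph V} {A : Set (ι → Bool)} (h : Lab G A)
    (σ : ι → Bool) (F : Finset ι) (hne : (A ∩ {x | ∀ l ∈ F, x l = σ l}).Nonempty) :
    Lab G (A ∩ {x | ∀ l ∈ F, x l = σ l}) := by
  induction F using Finset.induction_on with
  | empty => simpa using h
  | insert a F ha ih =>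
    have e : A ∩ {x | ∀ l ∈ insert a F, x l = σ l}
        = (A ∩ {x | ∀ l ∈ F, x l = σ l}) ∩ {x | x a = σ a} := by
      ext x
      simp only [Set.mem_inter_iff, Set.mem_ofPred_eq, Finset.mem_insert, forall_eq_or_imp]
      tauto
    rw [e] at hne ⊢
    exact (ih (hne.mono Set.inter_subset_left)).face a _ hne

theorem Lab.projs {V : Type u} {G : SimpleGraph V} {A : Set (ι → Bool)} (h : Lab G A)
    (J : Finset ι) : Lab G ((fun x l => if l ∈ J then false else x l) '' A) := by
  induction J using Finset.induction_on with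
  | empty => simpa using h
  | insert a F ha ih =>
    have e : (fun (x : ι → Bool) l => if l ∈ insert a F then false else x l) '' A
        = (fun x => update x a false) '' ((fun (x : ι → Bool) l => if l ∈ F then false else x l) '' A) := by
      rw [Set.image_image]
      congr 1
      funext x l
      by_cases h1 : l = a
      · subst h1; simp
      · by_cases h2 : l ∈ F <;> simp [h1, h2]
    rw [e]
    exact ih.proj a

/-- The forbidden minor gives the condition on triples. -/
theorem q7_of_hyper {V : Type u} {G : SimpleGraph V} (hG : IsHypercellular G)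
    {A : Set (ι → Bool)} (h : Lab G A) (F : Finset ι) (i j k : ι) (hij : i ≠ j) (hik : i ≠ k)
    (hjk : j ≠ k) (σ : ι → Bool)
    (H : ∀ τ : ι → Bool, (∀ l ∈ F, τ l = σ l) → (τ i ≠ σ i ∨ τ j ≠ σ j ∨ τ k ≠ σ k) →
      ∃ x ∈ A, (∀ l ∈ F, x l = τ l) ∧ x i = τ i ∧ x j = τ j ∧ x k = τ k) (hi : i ∉ F)
    (hj : j ∉ F) (hk : k ∉ F) :
    ∃ x ∈ A, (∀ l ∈ F, x l = σ l) ∧ x i = σ i ∧ x j = σ j ∧ x k = σ k := by
  classical
  by_contra hcon
  -- realised patterns
  have H' : ∀ p q r : Bool, (p ≠ σ i ∨ q ≠ σ j ∨ r ≠ σ k) →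
      ∃ x ∈ A, (∀ l ∈ F, x l = σ l) ∧ x i = p ∧ x j = q ∧ x k = r := by
    intro p q r hpqr
    obtain ⟨x, hx, h1, h2, h3, h4⟩ := H
      (fun l => if l = i then p else if l = j then q else if l = k then r else σ l) (by
        intro l hl
        have e1 : l ≠ i := by rintro rfl; exact hi hl
        have e2 : l ≠ j := by rintro rfl; exact hj hl
        have e3 : l ≠ k := by rintro rfl; exact hk hl
        simp [e1, e2, e3]) (by simpa [hij.symm, hik.symm, hjk.symm] using hpqr)
    refine ⟨x, hx, fun l hl => ?_, by simpa using h2, by simpa [hij.symm] using h3,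
      by simpa [hik.symm, hjk.symm] using h4⟩
    have e1 : l ≠ i := by rintro rfl; exact hi hl
    have e2 : l ≠ j := by rintro rfl; exact hj hl
    have e3 : l ≠ k := by rintro rfl; exact hk hl
    simpa [e1, e2, e3] using h1 l hl
  have hne : (A ∩ {x | ∀ l ∈ F, x l = σ l}).Nonempty := by
    obtain ⟨x, hx, h1, -⟩ := H' (!σ i) (σ j) (σ k) (by simp)
    exact ⟨x, hx, h1⟩
  obtain ⟨W, K, χ, hm, hiso, hrange⟩ :=
    (h.faces σ F hne).projs (Finset.univ.filter fun l => l ≠ i ∧ l ≠ j ∧ l ≠ k)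
  refine hG.2 W K hm ⟨?_⟩
  let c : Fin 3 → ι := ![i, j, k]
  have hc : Injective c := by
    intro a b hab
    fin_cases a <;> fin_cases b <;> simp_all [c]
  have c0 : c 0 = i := rfl
  have c1 : c 1 = j := rfl
  have c2 : c 2 = k := rfl
  -- values of χ
  have hoff : ∀ w l, (∀ m, l ≠ c m) → χ w l = false := by
    intro w l hl
    have hw : χ w ∈ Set.range χ := ⟨w, rfl⟩
    rw [hrange] at hw
    obtain ⟨x, -, hx⟩ := hw
    rw [← hx]
    have : l ≠ i ∧ l ≠ j ∧ l ≠ k := ⟨hl 0, hl 1, hl 2⟩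
    simp [this]
  have hmiss : ∀ w, ¬ ∀ m, χ w (c m) = σ (c m) := by
    intro w hw
    have hw' : χ w ∈ Set.range χ := ⟨w, rfl⟩
    rw [hrange] at hw'
    obtain ⟨x, ⟨hxA, hxF⟩, hx⟩ := hw'
    apply hcon
    refine ⟨x, hxA, hxF, ?_, ?_, ?_⟩
    · have := hw 0; rw [← hx, c0] at this; simpa using this
    · have := hw 1; rw [← hx, c1] at this; simpa using this
    · have := hw 2; rw [← hx, c2] at this; simpa using this
  let f : W → {x : Fin 3 → Bool // x ≠ fun _ => true} := fun w =>
    ⟨fun m => decide (χ w (c m) = σ (c m)), fun heq => hmiss w fun m => by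
      have := congrFun heq m
      simpa using this⟩
  have hfval : ∀ w w' m, ((f w).1 m ≠ (f w').1 m ↔ χ w (c m) ≠ χ w' (c m)) := by
    intro w w' m
    show decide (χ w (c m) = σ (c m)) ≠ decide (χ w' (c m) = σ (c m)) ↔ _
    cases χ w (c m) <;> cases χ w' (c m) <;> cases σ (c m) <;> simp
  have hham : ∀ w w', hammingDist (f w).1 (f w').1 = hammingDist (χ w) (χ w') := by
    intro w w'
    unfold hammingDist
    rw [← Finset.card_image_of_injective _ hc]
    congr 1
    ext l
    simp only [Finset.mem_image, Finset.mem_filter, Finset.mem_univ, true_and]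
    constructor
    · rintro ⟨m, hm, rfl⟩
      exact (hfval w w' m).1 hm
    · intro hl
      by_contra hno
      have : ∀ m, l ≠ c m := by
        rintro m rfl
        exact hno ⟨m, (hfval w w' m).2 hl, rfl⟩
      exact hl (by rw [hoff w l this, hoff w' l this])
  have hfinj : Injective f := by
    intro w w' hww
    have := hham w w'
    rw [hww, hammingDist_self] at this
    exact hiso.inj (hammingDist_eq_zero.1 this.symm)
  have hfsurj : Surjective f := by
    rintro ⟨τ, hτ⟩
    have hτ' : ∃ m, τ m = false := by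
      by_contra hno
      push Not at hno
      exact hτ (funext fun m => by simpa using hno m)
    -- wanted values
    let pt : Fin 3 → Bool := fun m => if τ m then σ (c m) else !σ (c m)
    obtain ⟨x, hx, hxF, x0, x1, x2⟩ := H' (pt 0) (pt 1) (pt 2) (by
      obtain ⟨m, hm⟩ := hτ'
      have key : pt m ≠ σ (c m) := by simp [pt, hm]
      fin_cases m
      · exact Or.inl key
      · exact Or.inr (Or.inl key)
      · exact Or.inr (Or.inr key))
    have hmem : (fun l => if l ∈ (Finset.univ.filter fun l => l ≠ i ∧ l ≠ j ∧ l ≠ k) then false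
        else x l) ∈ Set.range χ := by
      rw [hrange]
      exact ⟨x, ⟨hx, hxF⟩, rfl⟩
    obtain ⟨w, hw⟩ := hmem
    refine ⟨w, Subtype.ext (funext fun m => ?_)⟩
    show decide (χ w (c m) = σ (c m)) = τ m
    have hwm : χ w (c m) = pt m := by
      rw [hw]
      fin_cases m
      · show (if i ∈ _ then false else x i) = _
        simp [x0]
      · show (if j ∈ _ then false else x j) = _
        simp [x1]
      · show (if k ∈ _ then false else x k) = _
        simp [x2]
    rw [hwm]
    cases hτm : τ m <;> simp [pt, hτm]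
  refine ⟨Equiv.ofBijective f ⟨hfinj, hfsurj⟩, ?_⟩
  intro w w'
  show hammingDist (f w).1 (f w').1 = 1 ↔ _
  rw [hham, hiso.adj]

theorem main (V : Type u) [Finite V] (G : SimpleGraph V) (hG : IsHypercellular G) :
    ∃ (d : ℕ) (A : Finset (Submodule ℝ (EuclideanSpace ℝ (Fin d)))),
      (∀ H ∈ A, Module.finrank ℝ H + 1 = d) ∧
      ∃ s : Set (Region A), IsConvexSet (topeGraph A) s ∧
        Nonempty (G ≃g (topeGraph A).induce s) := by
  classical
  obtain ⟨hconn, n, φ, hφ⟩ := hG.1
  let ι : Type := {i : Fin n // ∃ u v, φ u i ≠ φ v i}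
  let ψ : V → (ι → Bool) := fun v i => φ v i.1
  have hham : ∀ u v, hammingDist (ψ u) (ψ v) = hammingDist (φ u) (φ v) := by
    intro u v
    unfold hammingDist
    rw [← Finset.card_image_of_injective _ (Subtype.val_injective (p := fun i : Fin n =>
      ∃ u v, φ u i ≠ φ v i))]
    congr 1
    ext l
    simp only [Finset.mem_image, Finset.mem_filter, Finset.mem_univ, true_and]
    constructor
    · rintro ⟨m, hm, rfl⟩
      exact hm
    · intro hl
      exact ⟨⟨l, u, v, hl⟩, hl, rfl⟩
  have hiso : Iso G ψ := ⟨hconn, fun x y => by rw [hφ, hham]⟩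
  have hlab : Lab G (Set.range ψ) := ⟨V, G, ψ, PCMinor.refl, hiso, rfl⟩
  have hHC : HCSet (Set.range ψ) := by
    refine ⟨?_, ?_, ?_, ?_⟩
    · obtain ⟨v⟩ := hconn.nonempty
      exact ⟨_, ⟨v, rfl⟩⟩
    · rintro ⟨i, u, v, huv⟩ b
      by_cases hb : φ u i = b
      · exact ⟨_, ⟨u, rfl⟩, hb⟩
      · refine ⟨_, ⟨v, rfl⟩, ?_⟩
        show φ v i = b
        cases h1 : φ u i <;> cases h2 : φ v i <;> cases b <;> simp_all
    · rintro _ ⟨u, rfl⟩ _ ⟨v, rfl⟩ hne
      obtain ⟨x', -, i, h1, h2, h3⟩ := hiso.step (fun h => hne (by rw [h]) : u ≠ v)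
      refine ⟨i, h1, x', ?_⟩
      funext j
      by_cases hj : j = i
      · subst hj; simp [h2]
      · simp [hj, h3 j hj]
    · intro F i j k hij hik hjk hi hj hk σ H
      exact q7_of_hyper hG hlab F i j k hij hik hjk σ H hi hj hk
  obtain ⟨d, A, hA, Φ, hΦinj, hΦadj, hΦconv⟩ := realize hHC
  refine ⟨d, A, hA, Set.range Φ, hΦconv, ⟨?_⟩⟩
  let F : V → Set.range Φ := fun v => ⟨Φ ⟨ψ v, v, rfl⟩, _, rfl⟩
  have hF : Bijective F := by
    constructor
    · intro u v huv
      have h1 : Φ ⟨ψ u, u, rfl⟩ = Φ ⟨ψ v, v, rfl⟩ := congrArg Subtype.val huv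
      have h2 := congrArg Subtype.val (hΦinj h1)
      exact hiso.inj h2
    · rintro ⟨_, ⟨⟨_, v, rfl⟩, rfl⟩⟩
      exact ⟨v, rfl⟩
  refine ⟨Equiv.ofBijective F hF, ?_⟩
  intro u v
  show (topeGraph A).Adj (Φ ⟨ψ u, u, rfl⟩) (Φ ⟨ψ v, v, rfl⟩) ↔ _
  rw [hΦadj, hiso.adj]

end Pool.Agent.Helper12K9.HC
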