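import Pool.Agent.Helper12K9.HC.Comb3

namespace Pool.Agent.Helper12K9.HC

open Function

variable {ι : Type*} [DecidableEq ι] {V : Set (ι → Bool)}

/-- Maximal families all of whose triples are hexagonal. -/
structure IsLine (V : Set (ι → Bool)) (Z : Finset ι) : Prop where
  three : ∃ i j k, i ∈ Z ∧ j ∈ Z ∧ k ∈ Z ∧ Ht V i j k
  all : ∀ i ∈ Z, ∀ j ∈ Z, ∀ k ∈ Z, i ≠ j → i ≠ k → j ≠ k → Ht V i j k
  max : ∀ i ∈ Z, ∀ j ∈ Z, ∀ k, Ht V i j k → k ∈ Z

variable [Fintype ι]

theorem exists_line (h : HCSet V) {i j k : ι} (ht : Ht V i j k) :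
    ∃ Z : Finset ι, IsLine V Z ∧ i ∈ Z ∧ j ∈ Z ∧ k ∈ Z := by
  classical
  set Z : Finset ι := Finset.univ.filter (fun l => l = i ∨ l = j ∨ Ht V i j l) with hZ
  have mem : ∀ l, l ∈ Z ↔ (l = i ∨ l = j ∨ Ht V i j l) := by
    intro l; simp [hZ]
  have b1 : ∀ p ∈ Z, ∀ q ∈ Z, p ≠ i → q ≠ i → p ≠ q → Ht V i p q := by
    intro p hp q hq hpi hqi hpq
    rw [mem] at hp hq
    rcases hp with hp | hp | hp
    · exact absurd hp hpi
    · rcases hq with hq | hq | hq
      · exact absurd hq hqi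
      · exact absurd (hp.trans hq.symm) hpq
      · rw [hp]; exact hq
    · rcases hq with hq | hq | hq
      · exact absurd hq hqi
      · rw [hq]; exact hp.s23
      · exact L4 h hp hq hpq
  have b2 : ∀ p ∈ Z, p ≠ i → ∀ r, Ht V i p r → r ∈ Z := by
    intro p hp hpi r hr
    have hp' := (mem p).1 hp
    rcases hp' with hp' | hp' | hp'
    · exact absurd hp' hpi
    · rw [hp'] at hr
      exact (mem r).2 (Or.inr (Or.inr hr))
    · by_cases hrj : r = j
      · exact (mem r).2 (Or.inr (Or.inl hrj))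
      · exact (mem r).2 (Or.inr (Or.inr (L4 h hp'.s23 hr (Ne.symm hrj))))
  refine ⟨Z, ⟨⟨i, j, k, (mem i).2 (Or.inl rfl), (mem j).2 (Or.inr (Or.inl rfl)),
    (mem k).2 (Or.inr (Or.inr ht)), ht⟩, ?_, ?_⟩, (mem i).2 (Or.inl rfl),
    (mem j).2 (Or.inr (Or.inl rfl)), (mem k).2 (Or.inr (Or.inr ht))⟩
  · intro p hp q hq r hr hpq hpr hqr
    by_cases h1 : p = i
    · subst h1; exact b1 q hq r hr hpq.symm hpr.symm hqr
    by_cases h2 : q = i
    · subst h2; exact (b1 p hp r hr hpq hqr.symm hpr).s12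
    by_cases h3 : r = i
    · subst h3; exact (b1 p hp q hq hpr hqr hpq).s12.s23
    exact L4 h (b1 p hp q hq h1 h2 hpq).s12.s23.s23 (b1 p hp r hr h1 h3 hpr).s12 hqr |>.s12.s12
  · intro p hp q hq r hr
    have hpq := hr.c12.1
    by_cases h1 : p = i
    · subst h1; exact b2 q hq hpq.symm r hr
    by_cases h2 : q = i
    · subst h2; exact b2 p hp hpq r hr.s12
    by_cases h3 : r = i
    · rw [h3]; exact (mem i).2 (Or.inl rfl)
    have := b1 p hp q hq h1 h2 hpq
    -- Ht p q i, Ht p q r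
    have h4 : Ht V p i r := L4 h this.s12.s23 hr (Ne.symm h3)
    exact b2 p hp h1 r h4.s12

theorem IsLine.sub {Z Z' : Finset ι} (hZ : IsLine V Z) (hZ' : IsLine V Z') {i j : ι}
    (hij : i ≠ j) (hi : i ∈ Z) (hj : j ∈ Z) (hi' : i ∈ Z') (hj' : j ∈ Z') : Z ⊆ Z' := by
  intro r hr
  by_cases h1 : r = i
  · rw [h1]; exact hi'
  by_cases h2 : r = j
  · rw [h2]; exact hj'
  exact hZ'.max i hi' j hj' r (hZ.all i hi j hj r hr hij (Ne.symm h1) (Ne.symm h2))

theorem geod (h : HCSet V) : ∀ n : ℕ, ∀ u ∈ V, ∀ w ∈ V, hammingDist u w = n →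
    ∃ θ : ι → ℕ, (∀ i j, u i ≠ w i → u j ≠ w j → θ i = θ j → i = j) ∧
      ∀ t, (fun i => if θ i < t then w i else u i) ∈ V := by
  intro n
  induction n with
  | zero =>
    intro u hu w hw hd
    have := hammingDist_eq_zero.1 hd
    subst this
    exact ⟨fun _ => 0, fun i j hi => absurd rfl hi, fun t => by simpa using hu⟩
  | succ n ih =>
    intro u hu w hw hd
    have hxy : u ≠ w := by
      rintro rfl
      simp at hd
    obtain ⟨i₀, hi, hz⟩ := h.iso u hu w hw hxy
    have hd' : hammingDist (update u i₀ (w i₀)) w = n := by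
      have : hammingDist u w = hammingDist (update u i₀ (w i₀)) w + 1 := by
        unfold hammingDist
        have : (Finset.univ.filter fun j => u j ≠ w j)
            = insert i₀ (Finset.univ.filter fun j => (update u i₀ (w i₀)) j ≠ w j) := by
          ext j
          by_cases hj : j = i₀
          · subst hj; simp [hi]
          · simp [hj]
        rw [this, Finset.card_insert_of_notMem]
        simp
      omega
    obtain ⟨θ', hinj, hmix⟩ := ih _ hz w hw hd'
    refine ⟨fun i => if i = i₀ then 0 else θ' i + 1, ?_, ?_⟩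
    · intro i j hui huj hθ
      by_cases h1 : i = i₀ <;> by_cases h2 : j = i₀
      · rw [h1, h2]
      · simp [h1, h2] at hθ
      · simp [h1, h2] at hθ
      · simp only [h1, h2, if_false, add_left_inj] at hθ
        exact hinj i j (by rw [update_of_ne h1]; exact hui) (by rw [update_of_ne h2]; exact huj) hθ
    · intro t
      rcases t with _ | t
      · simpa using hu
      · convert hmix t using 1
        funext i
        by_cases h1 : i = i₀
        · subst h1; simp
        · simp [h1]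

/-- realising the antipode of `v` on a line -/
theorem anti (h : HCSet V) {v : ι → Bool} (hv : v ∈ V) {Z : Finset ι} (hZ : IsLine V Z) :
    ∃ u ∈ V, ∀ i ∈ Z, u i = !v i := by
  apply F3 h (fun i => !v i) Z
  · intro i hi j hj
    by_cases hij : i = j
    · subst hij
      obtain ⟨x, hx, h1⟩ := h.nonconst i (!v i)
      exact ⟨x, hx, h1, h1⟩
    · have : ∃ k, k ∈ Z ∧ k ≠ i ∧ k ≠ j := by
        obtain ⟨a, b, c, ha, hb, hc, ht⟩ := hZ.three
        have hab := ht.c12.1
        have hac := ht.c13.1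
        have hbc := ht.c23.1
        by_cases a1 : a = i ∨ a = j
        · by_cases b1 : b = i ∨ b = j
          · refine ⟨c, hc, ?_, ?_⟩
            · rintro rfl; rcases a1 with a1 | a1 <;> rcases b1 with b1 | b1 <;> simp_all
            · rintro rfl; rcases a1 with a1 | a1 <;> rcases b1 with b1 | b1 <;> simp_all
          · push Not at b1; exact ⟨b, hb, b1⟩
        · push Not at a1; exact ⟨a, ha, a1⟩
      obtain ⟨k, hk, hki, hkj⟩ := this
      exact (hZ.all i hi j hj k hk hij hki.symm hkj.symm).c12.2 _ _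
  · intro i hi j hj k hk hij hik hjk
    obtain ⟨a, b, c, e⟩ := hZ.all i hi j hj k hk hij hik hjk
    by_contra hn
    have hvT : T3 V i j k (v i) (v j) (v k) := ⟨v, hv, rfl, rfl, rfl⟩
    rcases e.unique h hn with ⟨h1, h2, h3⟩ | ⟨h1, h2, h3⟩
    · have e' := e.neg h
      rw [← h1, ← h2, ← h3, Bool.not_not, Bool.not_not, Bool.not_not] at e'
      exact e'.2.2.2 hvT
    · have g1 : v i = a := by simpa using h1
      have g2 : v j = b := by simpa using h2
      have g3 : v k = c := by simpa using h3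
      rw [g1, g2, g3] at hvT
      exact e.2.2.2 hvT

theorem exists_theta (h : HCSet V) {v : ι → Bool} (hv : v ∈ V) {Z : Finset ι} (hZ : IsLine V Z) :
    ∃ θ : ι → ℕ, (∀ i ∈ Z, ∀ j ∈ Z, θ i = θ j → i = j) ∧
      ∀ i ∈ Z, ∀ j ∈ Z, ∀ k ∈ Z, θ i < θ j → θ j < θ k → Far V v j i k := by
  obtain ⟨u, hu, hua⟩ := anti h hv hZ
  obtain ⟨θ, hinj, hmix⟩ := geod h _ v hv u hu rfl
  refine ⟨θ, fun i hi j hj hθ => hinj i j (by rw [hua i hi]; simp) (by rw [hua j hj]; simp) hθ, ?_⟩
  intro i hi j hj k hk hij hjk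
  have d1 : i ≠ j := by rintro rfl; exact lt_irrefl _ hij
  have d2 : j ≠ k := by rintro rfl; exact lt_irrefl _ hjk
  have d3 : i ≠ k := by rintro rfl; exact lt_irrefl _ (hij.trans hjk)
  have m0 : T3 V i j k (v i) (v j) (v k) := ⟨v, hv, rfl, rfl, rfl⟩
  have m1 : T3 V i j k (!v i) (v j) (v k) := by
    refine ⟨_, hmix (θ j), ?_, ?_, ?_⟩
    · simp [hij, hua i hi]
    · simp
    · simp [hjk.le]
  have m2 : T3 V i j k (!v i) (!v j) (v k) := by
    refine ⟨_, hmix (θ k), ?_, ?_, ?_⟩
    · simp [hij.trans hjk, hua i hi]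
    · simp [hjk, hua j hj]
    · simp
  obtain ⟨a, b, c, e⟩ := hZ.all i hi j hj k hk d1 d3 d2
  have e' := e.neg h
  have n := e.2.2.2
  have n' := e'.2.2.2
  have : Ex V i j k (v i) (!v j) (v k) := by
    revert e e' n n' m0 m1 m2
    generalize v i = x
    generalize v j = y
    generalize v k = z
    cases a <;> cases b <;> cases c <;> cases x <;> cases y <;> cases z <;>
      simp only [Bool.not_true, Bool.not_false] <;> tauto
  exact this.s23

end Pool.Agent.Helper12K9.HC
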