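import Pool.Agent.Helper12K9.HC.Defs

namespace Pool.Agent.Helper12K9.HC

open Function

universe u

section hamming

variable {ι : Type*} [Fintype ι] [DecidableEq ι]

theorem hamming_one {x y : ι → Bool} (h : hammingDist x y = 1) :
    ∃ i, x i ≠ y i ∧ ∀ j, j ≠ i → x j = y j := by
  unfold hammingDist at h
  obtain ⟨i, hi⟩ := Finset.card_eq_one.1 h
  refine ⟨i, ?_, fun j hj => ?_⟩
  · have : i ∈ Finset.univ.filter (fun j => x j ≠ y j) := by rw [hi]; simp
    simpa using this
  · by_contra hne
    have : j ∈ Finset.univ.filter (fun j => x j ≠ y j) := by simpa using hne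
    rw [hi] at this
    exact hj (by simpa using this)

theorem hamming_of_one {x y : ι → Bool} {i : ι} (h1 : x i ≠ y i) (h2 : ∀ j, j ≠ i → x j = y j) :
    hammingDist x y = 1 := by
  unfold hammingDist
  rw [Finset.card_eq_one]
  refine ⟨i, ?_⟩
  ext j
  by_cases hj : j = i
  · subst hj; simpa using h1
  · simp [hj, h2 j hj]

/-- flipping one coordinate towards `y` reduces the distance by one -/
theorem hamming_flip {x x' y : ι → Bool} {i : ι} (h1 : x i ≠ y i) (h2 : x' i = y i)
    (h3 : ∀ j, j ≠ i → x' j = x j) : hammingDist x' y + 1 = hammingDist x y := by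
  unfold hammingDist
  have : (Finset.univ.filter fun j => x j ≠ y j)
      = insert i (Finset.univ.filter fun j => x' j ≠ y j) := by
    ext j
    by_cases hj : j = i
    · subst hj; simp [h1]
    · simp [hj, h3 j hj]
  rw [this, Finset.card_insert_of_notMem]
  simp [h2]

/-- a neighbour of `x` closer to `y` flips a coordinate on which `x` and `y` differ -/
theorem hamming_step {x x' y : ι → Bool} (h1 : hammingDist x x' = 1)
    (h2 : hammingDist x' y + 1 = hammingDist x y) :
    ∃ i, x i ≠ y i ∧ x' i = y i ∧ ∀ j, j ≠ i → x' j = x j := by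
  obtain ⟨i, hi, hj⟩ := hamming_one h1
  have hxi : x' i = y i := by
    by_contra hne
    have hxy : x i = y i := by
      cases h : x i <;> cases h' : x' i <;> cases h'' : y i <;> simp_all
    have := hamming_flip (x := x') (x' := x) (y := y) hne hxy (fun j hji => hj j hji)
    omega
  exact ⟨i, fun h => hi (h.trans hxi.symm), hxi, fun j hji => (hj j hji).symm⟩

end hamming

/-- `χ` is an isometric labelling of the connected graph `H` -/
def Iso {ι : Type} [Fintype ι] [DecidableEq ι] {W : Type u} (H : SimpleGraph W)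
    (χ : W → (ι → Bool)) : Prop :=
  H.Connected ∧ ∀ x y, H.dist x y = hammingDist (χ x) (χ y)

variable {ι : Type} [Fintype ι] [DecidableEq ι]

theorem iso_of_step {W : Type u} {H : SimpleGraph W} {χ : W → (ι → Bool)} (hne : Nonempty W)
    (hadj : ∀ x y, H.Adj x y → hammingDist (χ x) (χ y) = 1)
    (hstep : ∀ x y, x ≠ y → ∃ x', H.Adj x x' ∧
      hammingDist (χ x') (χ y) + 1 = hammingDist (χ x) (χ y)) : Iso H χ := by
  have hwalk : ∀ n, ∀ x y, hammingDist (χ x) (χ y) = n → ∃ p : H.Walk x y, p.length = n := by
    intro n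
    induction n with
    | zero =>
      intro x y hxy
      by_cases h : x = y
      · subst h; exact ⟨SimpleGraph.Walk.nil, rfl⟩
      · obtain ⟨x', -, hx'⟩ := hstep x y h
        omega
    | succ n ih =>
      intro x y hxy
      by_cases h : x = y
      · subst h; simp at hxy
      · obtain ⟨x', hx1, hx2⟩ := hstep x y h
        obtain ⟨p, hp⟩ := ih x' y (by omega)
        exact ⟨SimpleGraph.Walk.cons hx1 p, by simp [hp]⟩
  have hlen : ∀ x y (p : H.Walk x y), hammingDist (χ x) (χ y) ≤ p.length := by
    intro x y p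
    induction p with
    | nil => simp
    | cons h p ih =>
      rename_i a b c
      have h1 := hammingDist_triangle (χ a) (χ b) (χ c)
      rw [hadj _ _ h] at h1
      rw [SimpleGraph.Walk.length_cons]
      omega
  have hconn : H.Connected := by
    haveI := hne
    exact ⟨fun x y => ⟨(hwalk _ x y rfl).choose⟩⟩
  refine ⟨hconn, fun x y => ?_⟩
  apply le_antisymm
  · obtain ⟨p, hp⟩ := hwalk _ x y rfl
    rw [← hp]
    exact SimpleGraph.dist_le p
  · obtain ⟨p, hp⟩ := hconn.exists_walk_length_eq_dist x y
    rw [← hp]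
    exact hlen x y p

theorem Iso.adj {W : Type u} {H : SimpleGraph W} {χ : W → (ι → Bool)} (h : Iso H χ) {x y : W} :
    H.Adj x y ↔ hammingDist (χ x) (χ y) = 1 := by
  rw [← h.2, SimpleGraph.dist_eq_one_iff_adj]

theorem Iso.inj {W : Type u} {H : SimpleGraph W} {χ : W → (ι → Bool)} (h : Iso H χ) :
    Injective χ := by
  intro x y hxy
  have := h.2 x y
  rw [hxy, hammingDist_self] at this
  exact (h.1.dist_eq_zero_iff).1 this

theorem Iso.step {W : Type u} {H : SimpleGraph W} {χ : W → (ι → Bool)} (h : Iso H χ) {x y : W}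
    (hxy : x ≠ y) : ∃ x', H.Adj x x' ∧ ∃ i, χ x i ≠ χ y i ∧ χ x' i = χ y i ∧
      ∀ j, j ≠ i → χ x' j = χ x j := by
  obtain ⟨p, hp⟩ := h.1.exists_walk_length_eq_dist x y
  cases p with
  | nil => exact absurd rfl hxy
  | cons hadj p' =>
    rename_i x'
    refine ⟨x', hadj, hamming_step (h.adj.1 hadj) ?_⟩
    rw [SimpleGraph.Walk.length_cons] at hp
    have h1 : H.dist x' y ≤ p'.length := SimpleGraph.dist_le p'
    have h2 := h.1.dist_triangle (u := x) (v := x') (w := y)
    have h3 : H.dist x x' = 1 := SimpleGraph.dist_eq_one_iff_adj.2 hadj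
    rw [← h.2, ← h.2]
    omega

/-- labelled pc-minors -/
def Lab {V : Type u} (G : SimpleGraph V) (A : Set (ι → Bool)) : Prop :=
  ∃ (W : Type u) (H : SimpleGraph W) (χ : W → (ι → Bool)), PCMinor G W H ∧ Iso H χ ∧
    Set.range χ = A

theorem Lab.face {V : Type u} {G : SimpleGraph V} {A : Set (ι → Bool)} (h : Lab G A) (l : ι)
    (b : Bool) (hne : (A ∩ {x | x l = b}).Nonempty) : Lab G (A ∩ {x | x l = b}) := by
  obtain ⟨W, H, χ, hm, hiso, rfl⟩ := h
  set s : Set W := {w | χ w l = b} with hs
  have hsne : s.Nonempty := by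
    obtain ⟨_, ⟨w, rfl⟩, hw⟩ := hne
    exact ⟨w, hw⟩
  have hconv : IsConvexSet H s := by
    classical
    intro x hx y hy p hp z hz
    by_contra hzs
    have e1 : H.dist x z ≤ (p.takeUntil z hz).length := SimpleGraph.dist_le _
    have e2 : H.dist z y ≤ (p.dropUntil z hz).length := SimpleGraph.dist_le _
    have e3 : (p.takeUntil z hz).length + (p.dropUntil z hz).length = p.length := by
      rw [← SimpleGraph.Walk.length_append, SimpleGraph.Walk.take_spec]
    rw [hiso.2] at e1 e2 hp
    have hx' : χ x l = b := hx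
    have hy' : χ y l = b := hy
    have hz' : χ z l ≠ b := hzs
    -- replace z by its flip
    set z' : ι → Bool := update (χ z) l b with hz'def
    have f1 : hammingDist z' (χ y) + 1 = hammingDist (χ z) (χ y) :=
      hamming_flip (i := l) (by rw [hy']; exact hz') (by simp [hz'def, hy'])
        (fun j hj => by simp [hz'def, hj])
    have f2 : hammingDist z' (χ x) + 1 = hammingDist (χ z) (χ x) :=
      hamming_flip (i := l) (by rw [hx']; exact hz') (by simp [hz'def, hx'])
        (fun j hj => by simp [hz'def, hj])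
    have f3 := hammingDist_triangle (χ x) z' (χ y)
    rw [hammingDist_comm (χ x) z'] at f3
    rw [hammingDist_comm (χ z) (χ x)] at f2
    omega
  refine ⟨s, H.induce s, fun w => χ w.1, PCMinor.convex hm s hsne hconv, ?_, ?_⟩
  · refine iso_of_step hsne.to_subtype ?_ ?_
    · intro x y hxy
      exact hiso.adj.1 hxy
    · intro x y hxy
      obtain ⟨x', hx', i, h1, h2, h3⟩ := hiso.step (fun h => hxy (Subtype.ext h))
      have hil : l ≠ i := by
        rintro rfl
        exact h1 (x.2.trans y.2.symm)
      refine ⟨⟨x', (h3 l hil).trans x.2⟩, hx', hamming_flip h1 h2 h3⟩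
  · ext x
    constructor
    · rintro ⟨w, rfl⟩
      exact ⟨⟨w.1, rfl⟩, w.2⟩
    · rintro ⟨⟨w, rfl⟩, hw⟩
      exact ⟨⟨w, hw⟩, rfl⟩

/-- coordinatewise formula for the Djokovic–Winkler relation -/
theorem theta_iff {W : Type u} {H : SimpleGraph W} {χ : W → (ι → Bool)} (h : Iso H χ)
    {x y a b : W} {l m : ι} (hl1 : χ x l ≠ χ y l) (hl2 : ∀ j, j ≠ l → χ x j = χ y j)
    (hm1 : χ a m ≠ χ b m) (hm2 : ∀ j, j ≠ m → χ a j = χ b j) :
    Theta H x y a b ↔ m = l := by
  unfold Theta
  rw [h.2, h.2, h.2, h.2]
  constructor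
  · intro hne
    by_contra hml
    apply hne
    -- compare with the coordinate l: `y` is `x` flipped at `l`, `a` and `b` agree there
    have hlm : l ≠ m := fun h => hml h.symm
    have hab := hm2 l hlm
    by_cases hxa : χ x l = χ a l
    · have hxb : χ x l = χ b l := hxa.trans hab
      have f1 := hamming_flip (x := χ y) (x' := χ x) (y := χ a) (i := l)
        (by rw [← hxa]; exact hl1.symm) hxa (fun j hj => hl2 j hj)
      have f2 := hamming_flip (x := χ y) (x' := χ x) (y := χ b) (i := l)
        (by rw [← hxb]; exact hl1.symm) hxb (fun j hj => hl2 j hj)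
      omega
    · have hya : χ y l = χ a l := by
        cases h1 : χ x l <;> cases h2 : χ y l <;> cases h3 : χ a l <;> simp_all
      have hyb : χ y l = χ b l := hya.trans hab
      have f1 := hamming_flip (x := χ x) (x' := χ y) (y := χ a) (i := l) hxa hya
        (fun j hj => (hl2 j hj).symm)
      have f2 := hamming_flip (x := χ x) (x' := χ y) (y := χ b) (i := l)
        (by rw [← hab]; exact hxa) hyb (fun j hj => (hl2 j hj).symm)
      omega
  · rintro rfl
    by_cases hxa : χ x m = χ a m
    · have hyb : χ y m = χ b m := by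
        cases h1 : χ x m <;> cases h2 : χ y m <;> cases h3 : χ a m <;> cases h4 : χ b m <;>
          simp_all
      have f1 := hamming_flip (x := χ y) (x' := χ x) (y := χ a) (i := m)
        (by rw [← hxa]; exact hl1.symm) hxa (fun j hj => hl2 j hj)
      have f2 := hamming_flip (x := χ x) (x' := χ y) (y := χ b) (i := m)
        (by rw [← hyb]; exact hl1) hyb (fun j hj => (hl2 j hj).symm)
      omega
    · have hxb : χ x m = χ b m := by
        cases h1 : χ x m <;> cases h3 : χ a m <;> cases h4 : χ b m <;> simp_all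
      have hya : χ y m = χ a m := by
        cases h1 : χ x m <;> cases h2 : χ y m <;> cases h3 : χ a m <;> simp_all
      have f1 := hamming_flip (x := χ x) (x' := χ y) (y := χ a) (i := m) hxa hya
        (fun j hj => (hl2 j hj).symm)
      have f2 := hamming_flip (x := χ y) (x' := χ x) (y := χ b) (i := m)
        (by rw [← hxb]; exact hl1.symm) hxb (fun j hj => hl2 j hj)
      omega

theorem Lab.proj {V : Type u} {G : SimpleGraph V} {A : Set (ι → Bool)} (h : Lab G A) (l : ι) :
    Lab G ((fun x => update x l false) '' A) := by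
  obtain ⟨W, H, χ, hm, hiso, rfl⟩ := h
  by_cases hconst : ∀ x y, χ x l = χ y l
  · -- the coordinate is constant
    refine ⟨W, H, fun w => update (χ w) l false, hm, ⟨hiso.1, fun x y => ?_⟩, ?_⟩
    · rw [hiso.2]
      unfold hammingDist
      congr 1
      ext j
      by_cases hj : j = l
      · subst hj; simp [hconst x y]
      · simp [hj]
    · ext z
      constructor
      · rintro ⟨w, rfl⟩; exact ⟨_, ⟨w, rfl⟩, rfl⟩
      · rintro ⟨_, ⟨w, rfl⟩, rfl⟩; exact ⟨w, rfl⟩
  · -- there is an edge in direction l
    push Not at hconst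
    obtain ⟨w1, w2, hw⟩ := hconst
    obtain ⟨x, y, hxy, hxl⟩ : ∃ x y, H.Adj x y ∧ χ x l ≠ χ y l := by
      obtain ⟨p⟩ := hiso.1.preconnected w1 w2
      induction p with
      | nil => exact absurd rfl hw
      | cons h p ih =>
        rename_i a b c
        by_cases hab : χ a l = χ b l
        · exact ih (by rw [← hab]; exact hw)
        · exact ⟨a, b, h, hab⟩
    obtain ⟨l', hl'1, hl'2⟩ := hamming_one (hiso.adj.1 hxy)
    have hll : l' = l := by
      by_contra hne
      exact hxl (hl'2 l (Ne.symm hne))
    subst hll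
    -- the relation
    have hrel : ∀ a b, ContrRel H x y a b ↔
        (χ a l' ≠ χ b l' ∧ ∀ j, j ≠ l' → χ a j = χ b j) := by
      intro a b
      constructor
      · rintro ⟨hab, hth⟩
        obtain ⟨m, hm1, hm2⟩ := hamming_one (hiso.adj.1 hab)
        have := (theta_iff hiso hl'1 hl'2 hm1 hm2).1 hth
        subst this
        exact ⟨hm1, hm2⟩
      · rintro ⟨h1, h2⟩
        exact ⟨hiso.adj.2 (hamming_of_one h1 h2), (theta_iff hiso hl'1 hl'2 h1 h2).2 rfl⟩
    let χ' : Quot (ContrRel H x y) → (ι → Bool) := Quot.lift (fun a => update (χ a) l' false) (by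
      intro a b hab
      funext j
      by_cases hj : j = l'
      · subst hj; simp
      · simp [hj, ((hrel a b).1 hab).2 j hj])
    have hχ' : ∀ a, χ' (Quot.mk _ a) = update (χ a) l' false := fun a => rfl
    -- `χ'` is injective
    have hinj : ∀ a b, χ' (Quot.mk _ a) = χ' (Quot.mk _ b) →
        (Quot.mk (ContrRel H x y) a) = Quot.mk _ b := by
      intro a b hab
      rw [hχ', hχ'] at hab
      have hj : ∀ j, j ≠ l' → χ a j = χ b j := by
        intro j hj
        have := congrFun hab j
        simpa [hj] using this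
      by_cases hl : χ a l' = χ b l'
      · have : χ a = χ b := by
          funext j
          by_cases hjl : j = l'
          · rw [hjl]; exact hl
          · exact hj j hjl
        rw [hiso.inj this]
      · exact Quot.sound ((hrel a b).2 ⟨hl, hj⟩)
    refine ⟨Quot (ContrRel H x y), contractTheta H x y, χ', PCMinor.contract hm x y hxy, ?_, ?_⟩
    · refine iso_of_step ⟨Quot.mk _ x⟩ ?_ ?_
      · rintro _ _ ⟨hne, a, b, rfl, rfl, hab⟩
        obtain ⟨m, hm1, hm2⟩ := hamming_one (hiso.adj.1 hab)
        have hml : m ≠ l' := by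
          rintro rfl
          exact hne (Quot.sound ((hrel a b).2 ⟨hm1, hm2⟩))
        rw [hχ', hχ']
        refine hamming_of_one (i := m) (by simpa [hml] using hm1) ?_
        intro j hj
        by_cases hjl : j = l'
        · subst hjl; simp
        · simp [hjl, hm2 j hj]
      · intro qa qb
        obtain ⟨a, rfl⟩ := Quot.exists_rep qa
        obtain ⟨b, rfl⟩ := Quot.exists_rep qb
        intro hne
        -- a good representative
        have key : ∃ a₀ a', Quot.mk (ContrRel H x y) a₀ = Quot.mk _ a ∧ H.Adj a₀ a' ∧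
            ∃ i, i ≠ l' ∧ χ a₀ i ≠ χ b i ∧ χ a' i = χ b i ∧ ∀ j, j ≠ i → χ a' j = χ a₀ j := by
          have hab : a ≠ b := by rintro rfl; exact hne rfl
          obtain ⟨a', ha', i, h1, h2, h3⟩ := hiso.step hab
          by_cases hil : i = l'
          · subst hil
            have hq : Quot.mk (ContrRel H x y) a' = Quot.mk _ a :=
              Quot.sound ((hrel a' a).2 ⟨by rw [h2]; exact h1.symm, h3⟩)
            have hab' : a' ≠ b := by
              rintro rfl
              exact hne hq.symm
            obtain ⟨a'', ha'', i', k1, k2, k3⟩ := hiso.step hab'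
            refine ⟨a', a'', hq, ha'', i', ?_, k1, k2, k3⟩
            rintro rfl
            exact k1 h2
          · exact ⟨a, a', rfl, ha', i, hil, h1, h2, h3⟩
        obtain ⟨a₀, a', hq, hadj, i, hil, h1, h2, h3⟩ := key
        rw [← hq]
        refine ⟨Quot.mk _ a', ⟨?_, a₀, a', rfl, rfl, hadj⟩, ?_⟩
        · intro heq
          have := congrArg χ' heq
          rw [hχ', hχ'] at this
          have := congrFun this i
          rw [update_of_ne hil, update_of_ne hil, h2] at this
          exact h1 this
        · rw [hχ', hχ', hχ']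
          refine hamming_flip (i := i) (by simpa [hil] using h1) (by simpa [hil] using h2) ?_
          intro j hj
          by_cases hjl : j = l'
          · subst hjl; simp
          · simp [hjl, h3 j hj]
    · ext z
      constructor
      · rintro ⟨q, rfl⟩
        obtain ⟨w, rfl⟩ := Quot.exists_rep q
        exact ⟨_, ⟨w, rfl⟩, rfl⟩
      · rintro ⟨_, ⟨w, rfl⟩, rfl⟩
        exact ⟨Quot.mk _ w, rfl⟩

end Pool.Agent.Helper12K9.HC
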