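import Pool.Agent.Helper12K9.HC.Lines

namespace Pool.Agent.Helper12K9.HC

open Function

variable {ι : Type*} [DecidableEq ι] {V : Set (ι → Bool)} [Fintype ι]

theorem far_not_far (h : HCSet V) {v : ι → Bool} {b a a' : ι} (h1 : Far V v b a a')
    (h2 : Far V v a b a') : False := by
  -- h1 : Ex a a' b (v a) (v a') (!v b); h2 : Ex b a' a (v b) (v a') (!v a)
  have e2 : Ex V a a' b (!v a) (v a') (v b) := h2.s23.s12.s23
  rcases h1.unique h e2.2.2.2 with ⟨g, -, -⟩ | ⟨-, g, -⟩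
  · simp at g
  · simp at g

theorem near_pair (h : HCSet V) {v : ι → Bool} (hv : v ∈ V) {Z : Finset ι} (hZ : IsLine V Z) :
    ∃ p ∈ Z, ∃ q ∈ Z, p ≠ q ∧ (∀ b ∈ Z, b ≠ p → b ≠ q → Far V v b p q) ∧
      (∀ a ∈ Z, ∀ a' ∈ Z, ¬ Far V v p a a') ∧ (∀ a ∈ Z, ∀ a' ∈ Z, ¬ Far V v q a a') := by
  obtain ⟨θ, hinj, hfar⟩ := exists_theta h hv hZ
  obtain ⟨i, j, k, hi, hj, hk, ht⟩ := hZ.three
  obtain ⟨p, hp, hpm⟩ := Finset.exists_min_image Z θ ⟨i, hi⟩
  obtain ⟨q, hq, hqm⟩ := Finset.exists_max_image Z θ ⟨i, hi⟩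
  have hlt : ∀ a ∈ Z, a ≠ p → θ p < θ a := fun a ha hap =>
    lt_of_le_of_ne (hpm a ha) fun e => hap (hinj p hp a ha e).symm
  have hgt : ∀ a ∈ Z, a ≠ q → θ a < θ q := fun a ha haq =>
    lt_of_le_of_ne (hqm a ha) fun e => haq (hinj a ha q hq e)
  refine ⟨p, hp, q, hq, ?_, ?_, ?_, ?_⟩
  · rintro rfl
    have h1 : ∀ a ∈ Z, a = p := by
      intro a ha
      by_contra hap
      exact absurd ((hlt a ha hap).trans (hgt a ha hap)) (lt_irrefl _)
    exact ht.c12.1 ((h1 i hi).trans (h1 j hj).symm)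
  · intro b hb hbp hbq
    exact hfar p hp b hb q hq (hlt b hb hbp) (hgt b hb hbq)
  · have key : ∀ a ∈ Z, ∀ a' ∈ Z, θ a < θ a' → ¬ Far V v p a a' := by
      intro a ha a' ha' haa hf
      have hap : a ≠ p := hf.2.1.1
      exact far_not_far h hf (hfar p hp a ha a' ha' (hlt a ha hap) haa)
    intro a ha a' ha' hf
    rcases lt_trichotomy (θ a) (θ a') with hl | hl | hl
    · exact key a ha a' ha' hl hf
    · exact hf.1.1 (hinj a ha a' ha' hl)
    · exact key a' ha' a ha hl hf.symm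
  · have key : ∀ a ∈ Z, ∀ a' ∈ Z, θ a < θ a' → ¬ Far V v q a a' := by
      intro a ha a' ha' haa hf
      have hap : a' ≠ q := hf.2.2.1.1
      exact far_not_far h hf.symm (hfar a ha a' ha' q hq haa (hgt a' ha' hap)).symm
    intro a ha a' ha' hf
    rcases lt_trichotomy (θ a) (θ a') with hl | hl | hl
    · exact key a ha a' ha' hl hf
    · exact hf.1.1 (hinj a ha a' ha' hl)
    · exact key a' ha' a ha hl hf.symm

open Classical in
/-- the classes below `j` at `v` -/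
noncomputable def Ns (V : Set (ι → Bool)) (v : ι → Bool) (j : ι) : Finset ι :=
  Finset.univ.filter (fun i => Nv V v i j)

omit [DecidableEq ι] in
theorem mem_Ns {v : ι → Bool} {i j : ι} : i ∈ Ns V v j ↔ Nv V v i j := by
  classical
  simp [Ns]

/-- far somewhere -/
def FarS (V : Set (ι → Bool)) (v : ι → Bool) (b : ι) : Prop := ∃ a a', Far V v b a a'

open Classical in
/-- the rank -/
noncomputable def rk (V : Set (ι → Bool)) (v : ι → Bool) (b : ι) : ℕ :=
  2 * (Ns V v b).card + if FarS V v b then 1 else 0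

theorem Ns_lt (h : HCSet V) {v : ι → Bool} {i j : ι} (hN : Nv V v i j) :
    (Ns V v i).card < (Ns V v j).card := by
  apply Finset.card_lt_card
  rw [Finset.ssubset_iff_of_subset]
  · exact ⟨i, mem_Ns.2 hN, fun hi => (mem_Ns.1 hi).1 rfl⟩
  · intro k hk
    exact mem_Ns.2 ((mem_Ns.1 hk).trans h hN)

theorem rk_free (h : HCSet V) {v : ι → Bool} {i j : ι} (hN : Nv V v i j) (hj : ¬ FarS V v j) :
    rk V v i < rk V v j := by
  classical
  have := Ns_lt h hN
  unfold rk
  split_ifs <;> omega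

theorem rk_near (h : HCSet V) {v : ι → Bool} (hv : v ∈ V) {Z : Finset ι} (hZ : IsLine V Z)
    {b p q : ι} (hb : b ∈ Z) (hp : p ∈ Z) (hf : Far V v b p q)
    (hnf : ∀ a ∈ Z, ∀ a' ∈ Z, ¬ Far V v p a a') : rk V v p < rk V v b := by
  classical
  have hfb : FarS V v b := ⟨_, _, hf⟩
  have hsub : Ns V v p ⊆ Ns V v b := by
    intro j hj
    exact mem_Ns.2 (Nv_far h hv hf.symm (mem_Ns.1 hj))
  by_cases hfp : FarS V v p
  · obtain ⟨e, e', hfe⟩ := hfp
    have he : e ∉ Z := by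
      intro he
      have := hZ.max p hp e he e' hfe.ht.s23.s12
      exact hnf e he e' this hfe
    have he' : e' ∉ Z := by
      intro he'
      have := hZ.max p hp e' he' e hfe.symm.ht.s23.s12
      exact hnf e this e' he' hfe
    have hdrop := far_drop h hv hf hfe
      (fun ht => he (hZ.max p hp b hb e ht)) (fun ht => he' (hZ.max p hp b hb e' ht))
      (fun hh => he (hh ▸ hb)) (fun hh => he' (hh ▸ hb))
    have hss : (Ns V v p).card < (Ns V v b).card := by
      apply Finset.card_lt_card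
      rw [Finset.ssubset_iff_of_subset hsub]
      rcases hdrop with hd | hd
      · exact ⟨e, mem_Ns.2 hd, fun hh => (mem_Ns.1 hh).2 (hfe.2.1.2 _ _)⟩
      · exact ⟨e', mem_Ns.2 hd, fun hh => (mem_Ns.1 hh).2 (hfe.2.2.1.2 _ _)⟩
    unfold rk
    split_ifs <;> omega
  · have := Finset.card_le_card hsub
    unfold rk
    simp only [hfp, hfb, if_true, if_false]
    omega

/-- the line on which `b` is far is unique -/
theorem far_line (h : HCSet V) {v : ι → Bool} (hv : v ∈ V) {Z : Finset ι} (hZ : IsLine V Z)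
    {b a a' e e' : ι} (hb : b ∈ Z) (ha : a ∈ Z) (h1 : Far V v b a a')
    (h2 : Far V v b e e') : e ∈ Z ∧ e' ∈ Z := by
  have ha' : a' ∈ Z := hZ.max b hb a ha a' h1.ht.s23.s12
  by_cases he : e ∈ Z
  · exact ⟨he, hZ.max b hb e he e' h2.ht.s23.s12⟩
  by_cases he' : e' ∈ Z
  · exact absurd (hZ.max b hb e' he' e h2.symm.ht.s23.s12) he
  exfalso
  exact far_one h hv h1 h2 (fun ht => he (hZ.max b hb a ha e ht))
    (fun ht => he' (hZ.max b hb a ha e' ht)) (fun hh => he (hh ▸ ha)) (fun hh => he' (hh ▸ ha))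

end Pool.Agent.Helper12K9.HC
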