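import Mathlib

namespace Pool.Agent.Helper12K9.HC

theorem exists_weights {ι : Type*} [Fintype ι] (r : ι → ℕ) (F : ι → Prop) (p q : ι → ι)
    (α β : ι → ℝ) (N : ι → ι → Prop) (hα : ∀ j, F j → 0 < α j) (hβ : ∀ j, F j → 0 < β j)
    (hp : ∀ j, F j → r (p j) < r j) (hq : ∀ j, F j → r (q j) < r j)
    (hN1 : ∀ i j, N i j → ¬ F j → r i < r j)
    (hN2 : ∀ i j, N i j → F j → N i (p j) ∨ N i (q j)) :
    ∃ w : ι → ℝ, (∀ i, 0 < w i) ∧ (∀ j, F j → w j = α j * w (p j) + β j * w (q j)) ∧
      ∀ i j, N i j → w i < w j := by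
  classical
  obtain ⟨κ, hκ1, hκα, hκβ⟩ : ∃ κ : ℝ, 1 ≤ κ ∧ (∀ j, F j → 1 ≤ κ * α j) ∧
      (∀ j, F j → 1 ≤ κ * β j) := by
    refine ⟨1 + ∑ j, (|(α j)⁻¹| + |(β j)⁻¹|), ?_, ?_, ?_⟩
    · have : 0 ≤ ∑ j, (|(α j)⁻¹| + |(β j)⁻¹|) := Finset.sum_nonneg fun j _ => by positivity
      linarith
    · intro j hj
      have h1 : |(α j)⁻¹| + |(β j)⁻¹| ≤ ∑ j, (|(α j)⁻¹| + |(β j)⁻¹|) :=
        Finset.single_le_sum (f := fun j => |(α j)⁻¹| + |(β j)⁻¹|) (fun j _ => by positivity)
          (Finset.mem_univ j)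
      have h2 := hα j hj
      have h3 : (α j)⁻¹ ≤ |(α j)⁻¹| := le_abs_self _
      have h4 : 0 ≤ |(β j)⁻¹| := abs_nonneg _
      have h5 : (α j)⁻¹ ≤ 1 + ∑ j, (|(α j)⁻¹| + |(β j)⁻¹|) := by linarith
      calc (1 : ℝ) = (α j)⁻¹ * α j := by field_simp
        _ ≤ _ := mul_le_mul_of_nonneg_right h5 h2.le
    · intro j hj
      have h1 : |(α j)⁻¹| + |(β j)⁻¹| ≤ ∑ j, (|(α j)⁻¹| + |(β j)⁻¹|) :=
        Finset.single_le_sum (f := fun j => |(α j)⁻¹| + |(β j)⁻¹|) (fun j _ => by positivity)
          (Finset.mem_univ j)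
      have h2 := hβ j hj
      have h3 : (β j)⁻¹ ≤ |(β j)⁻¹| := le_abs_self _
      have h4 : 0 ≤ |(α j)⁻¹| := abs_nonneg _
      have h5 : (β j)⁻¹ ≤ 1 + ∑ j, (|(α j)⁻¹| + |(β j)⁻¹|) := by linarith
      calc (1 : ℝ) = (β j)⁻¹ * β j := by field_simp
        _ ≤ _ := mul_le_mul_of_nonneg_right h5 h2.le
  have hκ0 : 0 < κ := by linarith
  set R : ℕ := ∑ j, r j with hR
  have hrR : ∀ j, r j ≤ R := fun j =>
    Finset.single_le_sum (f := r) (fun _ _ => Nat.zero_le _) (Finset.mem_univ j)
  set K : ℝ := κ ^ R with hK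
  have hK0 : 0 < K := by positivity
  have step : ∀ n : ℕ, ∃ w : ι → ℝ, (∀ i, 0 < w i) ∧
      (∀ j, r j < n → F j → w j = α j * w (p j) + β j * w (q j)) ∧
      (∀ j, r j < n → ¬ F j → ∀ i, r i < r j → K * w i < w j) := by
    intro n
    induction n with
    | zero => exact ⟨fun _ => 1, fun _ => one_pos, by simp, by simp⟩
    | succ n ih =>
      obtain ⟨w, hw0, hw1, hw2⟩ := ih
      set w' : ι → ℝ := fun j => if r j = n then
        (if F j then α j * w (p j) + β j * w (q j) else 1 + K * ∑ i, w i) else w j with hw'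
      have hs : ∀ i, w i ≤ ∑ i, w i := fun i =>
        Finset.single_le_sum (f := w) (fun i _ => (hw0 i).le) (Finset.mem_univ i)
      have e1 : ∀ i, r i ≠ n → w' i = w i := fun i hi => by simp [hw', hi]
      have e2 : ∀ i, r i = n → F i → w' i = α i * w (p i) + β i * w (q i) :=
        fun i hi hF => by simp [hw', hi, hF]
      have e3 : ∀ i, r i = n → ¬ F i → w' i = 1 + K * ∑ i, w i :=
        fun i hi hF => by simp [hw', hi, hF]
      refine ⟨w', ?_, ?_, ?_⟩
      · intro i
        by_cases h1 : r i = n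
        · by_cases h2 : F i
          · rw [e2 i h1 h2]
            have := mul_pos (hα i h2) (hw0 (p i))
            have := mul_pos (hβ i h2) (hw0 (q i))
            linarith
          · rw [e3 i h1 h2]
            have : 0 < K * ∑ i, w i := mul_pos hK0 ((hw0 i).trans_le (hs i))
            linarith
        · rw [e1 i h1]; exact hw0 i
      · intro j hj hF
        have hpj := hp j hF
        have hqj := hq j hF
        rw [e1 (p j) (by omega), e1 (q j) (by omega)]
        by_cases h1 : r j = n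
        · exact e2 j h1 hF
        · rw [e1 j h1]; exact hw1 j (by omega) hF
      · intro j hj hF i hi
        rw [e1 i (by omega)]
        by_cases h1 : r j = n
        · rw [e3 j h1 hF]
          have := mul_le_mul_of_nonneg_left (hs i) hK0.le
          linarith
        · rw [e1 j h1]; exact hw2 j (by omega) hF i hi
  obtain ⟨w, hw0, hw1, hw2⟩ := step (R + 1)
  refine ⟨w, hw0, fun j hj => hw1 j (by have := hrR j; omega) hj, ?_⟩
  have claim : ∀ m : ℕ, ∀ j, r j = m → ∀ i, N i j → κ ^ (R - r j) * w i < w j := by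
    intro m
    induction m using Nat.strong_induction_on with
    | _ m ih =>
      intro j hj i hN
      by_cases hF : F j
      · have main : ∀ (s : ι) (γ δ : ℝ) (t : ι), r s < r j → 0 < γ → 0 < δ → 1 ≤ κ * γ → N i s →
            w j = γ * w s + δ * w t → κ ^ (R - r j) * w i < w j := by
          intro s γ δ t hs hγ hδ hκγ hNs hwj
          have h1 := ih (r s) (by omega) s rfl i hNs
          have h2 : κ ^ (R - r s) = κ ^ (R - r j) * (κ ^ (r j - r s - 1) * κ) := by
            rw [← pow_succ, ← pow_add]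
            congr 1
            have := hrR j
            omega
          have h3 : 1 ≤ κ ^ (r j - r s - 1) := one_le_pow₀ hκ1
          have h4 : 0 < κ ^ (R - r j) * w i := mul_pos (by positivity) (hw0 i)
          rw [hwj]
          have h5 : 0 < δ * w t := mul_pos hδ (hw0 t)
          have h6 : γ * (κ ^ (R - r s) * w i) < γ * w s := mul_lt_mul_of_pos_left h1 hγ
          have h7 : κ ^ (R - r j) * w i ≤ γ * (κ ^ (R - r s) * w i) := by
            rw [h2]
            have : 1 ≤ κ ^ (r j - r s - 1) * (κ * γ) := by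
              calc (1 : ℝ) = 1 * 1 := by ring
                _ ≤ _ := mul_le_mul h3 hκγ zero_le_one (by positivity)
            nlinarith
          linarith
        rcases hN2 i j hN hF with h | h
        · exact main (p j) (α j) (β j) (q j) (hp j hF) (hα j hF) (hβ j hF) (hκα j hF) h
            (hw1 j (by have := hrR j; omega) hF)
        · exact main (q j) (β j) (α j) (p j) (hq j hF) (hβ j hF) (hα j hF) (hκβ j hF) h
            (by rw [hw1 j (by have := hrR j; omega) hF]; ring)
      · have h1 := hw2 j (by have := hrR j; omega) hF i (hN1 i j hN hF)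
        have h2 : κ ^ (R - r j) ≤ K := pow_le_pow_right₀ hκ1 (by omega)
        have := mul_le_mul_of_nonneg_right h2 (hw0 i).le
        linarith
  intro i j hN
  have h1 := claim _ j rfl i hN
  have h2 : 1 ≤ κ ^ (R - r j) := one_le_pow₀ hκ1
  have := mul_le_mul_of_nonneg_right h2 (hw0 i).le
  linarith

end Pool.Agent.Helper12K9.HC
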