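import Pool.Agent.Helper12K9.HC.Near
import Pool.Agent.Helper12K9.HC.Weights

namespace Pool.Agent.Helper12K9.HC

open Function

variable {ι : Type*} [DecidableEq ι] {V : Set (ι → Bool)}

/-- sign of a Boolean -/
noncomputable def sg (b : Bool) : ℝ := if b then 1 else -1

@[simp] theorem sg_true : sg true = 1 := by simp [sg]
@[simp] theorem sg_false : sg false = -1 := by simp [sg]
@[simp] theorem sg_not (b : Bool) : sg (!b) = - sg b := by cases b <;> simp
theorem sg_mul_self (b : Bool) : sg b * sg b = 1 := by cases b <;> simp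
theorem sg_ne (b : Bool) : sg b ≠ 0 := by cases b <;> simp

/-- parameters on the lines -/
structure IsTheta (V : Set (ι → Bool)) (v₀ : ι → Bool) (θ : Finset ι → ι → ℝ) : Prop where
  inj : ∀ Z, IsLine V Z → ∀ i ∈ Z, ∀ j ∈ Z, θ Z i = θ Z j → i = j
  far : ∀ Z, IsLine V Z → ∀ i ∈ Z, ∀ j ∈ Z, ∀ k ∈ Z, θ Z i < θ Z j → θ Z j < θ Z k →
    Far V v₀ j i k

/-- the determinant relation -/
def DET (t : ι → ℝ) (y : ι → ℝ) (i j k : ι) : Prop :=
  (t j - t k) * y i + (t k - t i) * y j + (t i - t j) * y k = 0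

/-- the linear space -/
def Lsub (V : Set (ι → Bool)) (v₀ : ι → Bool) (θ : Finset ι → ι → ℝ) : Submodule ℝ (ι → ℝ) where
  carrier := {x | ∀ Z, IsLine V Z → ∀ i ∈ Z, ∀ j ∈ Z, ∀ k ∈ Z,
    DET (θ Z) (fun l => sg (v₀ l) * x l) i j k}
  add_mem' := by
    intro x y hx hy Z hZ i hi j hj k hk
    have h1 := hx Z hZ i hi j hj k hk
    have h2 := hy Z hZ i hi j hj k hk
    simp only [DET, Pi.add_apply] at h1 h2 ⊢
    linear_combination h1 + h2
  zero_mem' := by
    intro Z hZ i hi j hj k hk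
    simp [DET]
  smul_mem' := by
    intro c x hx Z hZ i hi j hj k hk
    have h1 := hx Z hZ i hi j hj k hk
    simp only [DET, Pi.smul_apply, smul_eq_mul] at h1 ⊢
    linear_combination c * h1

variable [Fintype ι]

theorem exists_IsTheta (h : HCSet V) {v₀ : ι → Bool} (hv : v₀ ∈ V) :
    ∃ θ : Finset ι → ι → ℝ, IsTheta V v₀ θ := by
  classical
  have : ∀ Z : Finset ι, ∃ θ : ι → ℕ, IsLine V Z → ((∀ i ∈ Z, ∀ j ∈ Z, θ i = θ j → i = j) ∧
      ∀ i ∈ Z, ∀ j ∈ Z, ∀ k ∈ Z, θ i < θ j → θ j < θ k → Far V v₀ j i k) := by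
    intro Z
    by_cases hZ : IsLine V Z
    · obtain ⟨θ, hθ⟩ := exists_theta h hv hZ
      exact ⟨θ, fun _ => hθ⟩
    · exact ⟨fun _ => 0, fun h' => absurd h' hZ⟩
  choose θ hθ using this
  refine ⟨fun Z i => (θ Z i : ℝ), ⟨?_, ?_⟩⟩
  · intro Z hZ i hi j hj e
    exact (hθ Z hZ).1 i hi j hj (by exact_mod_cast e)
  · intro Z hZ i hi j hj k hk h1 h2
    exact (hθ Z hZ).2 i hi j hj k hk (by exact_mod_cast h1) (by exact_mod_cast h2)

theorem sign_rel (h : HCSet V) {v₀ : ι → Bool} {θ : Finset ι → ι → ℝ} (hθ : IsTheta V v₀ θ)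
    {Z : Finset ι} (hZ : IsLine V Z) {i j k : ι} (hi : i ∈ Z) (hj : j ∈ Z) (hk : k ∈ Z)
    {a b c : Bool} (he : Ex V i j k a b c) :
    ∃ ε : ℝ, ε ≠ 0 ∧ ∀ x y z : ℝ,
      |θ Z j - θ Z k| * (sg a * x) + |θ Z i - θ Z k| * (sg b * y) + |θ Z i - θ Z j| * (sg c * z)
      = ε * ((θ Z j - θ Z k) * (sg (v₀ i) * x) + (θ Z k - θ Z i) * (sg (v₀ j) * y)
        + (θ Z i - θ Z j) * (sg (v₀ k) * z)) := by
  have nij : θ Z i ≠ θ Z j := fun e => he.1.1 (hθ.inj Z hZ i hi j hj e)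
  have nik : θ Z i ≠ θ Z k := fun e => he.2.1.1 (hθ.inj Z hZ i hi k hk e)
  have njk : θ Z j ≠ θ Z k := fun e => he.2.2.1.1 (hθ.inj Z hZ j hj k hk e)
  rcases lt_or_gt_of_ne nij with h1 | h1 <;> rcases lt_or_gt_of_ne nik with h2 | h2 <;>
    rcases lt_or_gt_of_ne njk with h3 | h3
  · -- i < j < k
    have f := (hθ.far Z hZ i hi j hj k hk h1 h3).s23
    rw [abs_of_neg (sub_neg.2 h1), abs_of_neg (sub_neg.2 h2), abs_of_neg (sub_neg.2 h3)]
    rcases f.unique h he.2.2.2 with ⟨g1, g2, g3⟩ | ⟨g1, g2, g3⟩ <;> rw [g1, g2, g3] <;>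
      simp only [sg_not] <;> first
        | exact ⟨1, by norm_num, fun x y z => by ring1⟩
        | exact ⟨-1, by norm_num, fun x y z => by ring1⟩
  · -- i < k < j
    have f := hθ.far Z hZ i hi k hk j hj h2 h3
    rw [abs_of_neg (sub_neg.2 h1), abs_of_neg (sub_neg.2 h2), abs_of_pos (sub_pos.2 h3)]
    rcases f.unique h he.2.2.2 with ⟨g1, g2, g3⟩ | ⟨g1, g2, g3⟩ <;> rw [g1, g2, g3] <;>
      simp only [sg_not] <;> first
        | exact ⟨1, by norm_num, fun x y z => by ring1⟩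
        | exact ⟨-1, by norm_num, fun x y z => by ring1⟩
  · exact absurd (h1.trans (h3.trans h2)) (lt_irrefl _)
  · -- k < i < j
    have f := (hθ.far Z hZ k hk i hi j hj h2 h1).s23.s12.s23
    rw [abs_of_neg (sub_neg.2 h1), abs_of_pos (sub_pos.2 h2), abs_of_pos (sub_pos.2 h3)]
    rcases f.unique h he.2.2.2 with ⟨g1, g2, g3⟩ | ⟨g1, g2, g3⟩ <;> rw [g1, g2, g3] <;>
      simp only [sg_not] <;> first
        | exact ⟨1, by norm_num, fun x y z => by ring1⟩
        | exact ⟨-1, by norm_num, fun x y z => by ring1⟩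
  · -- j < i < k
    have f := (hθ.far Z hZ j hj i hi k hk h1 h2).s23.s12
    rw [abs_of_pos (sub_pos.2 h1), abs_of_neg (sub_neg.2 h2), abs_of_neg (sub_neg.2 h3)]
    rcases f.unique h he.2.2.2 with ⟨g1, g2, g3⟩ | ⟨g1, g2, g3⟩ <;> rw [g1, g2, g3] <;>
      simp only [sg_not] <;> first
        | exact ⟨1, by norm_num, fun x y z => by ring1⟩
        | exact ⟨-1, by norm_num, fun x y z => by ring1⟩
  · exact absurd (h1.trans (h2.trans h3)) (lt_irrefl _)
  · -- j < k < i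
    have f := (hθ.far Z hZ j hj k hk i hi h3 h2).s12
    rw [abs_of_pos (sub_pos.2 h1), abs_of_pos (sub_pos.2 h2), abs_of_neg (sub_neg.2 h3)]
    rcases f.unique h he.2.2.2 with ⟨g1, g2, g3⟩ | ⟨g1, g2, g3⟩ <;> rw [g1, g2, g3] <;>
      simp only [sg_not] <;> first
        | exact ⟨1, by norm_num, fun x y z => by ring1⟩
        | exact ⟨-1, by norm_num, fun x y z => by ring1⟩
  · -- k < j < i
    have f := (hθ.far Z hZ k hk j hj i hi h3 h1).s12.s23
    rw [abs_of_pos (sub_pos.2 h1), abs_of_pos (sub_pos.2 h2), abs_of_pos (sub_pos.2 h3)]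
    rcases f.unique h he.2.2.2 with ⟨g1, g2, g3⟩ | ⟨g1, g2, g3⟩ <;> rw [g1, g2, g3] <;>
      simp only [sg_not] <;> first
        | exact ⟨1, by norm_num, fun x y z => by ring1⟩
        | exact ⟨-1, by norm_num, fun x y z => by ring1⟩

/-- Every point of the cone has its sign vector in `V`. -/
theorem real_mem (h : HCSet V) {v₀ : ι → Bool} {θ : Finset ι → ι → ℝ} (hθ : IsTheta V v₀ θ)
    {x : ι → ℝ} (hx : x ∈ Lsub V v₀ θ)
    (hC : ∀ i j a b, i ≠ j → ¬ P2 V i j a b → sg a * x i + sg b * x j < 0)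
    {σ : ι → Bool} (hσ : ∀ i, 0 < sg (σ i) * x i) : σ ∈ V := by
  have g2 : ∀ i j, P2 V i j (σ i) (σ j) := by
    intro i j
    by_cases hij : i = j
    · subst hij
      obtain ⟨y, hy, h1⟩ := h.nonconst i (σ i)
      exact ⟨y, hy, h1, h1⟩
    · by_contra hn
      have := hC i j _ _ hij hn
      linarith [hσ i, hσ j]
  obtain ⟨y, hy, hyσ⟩ := F3 h σ Finset.univ (fun i _ j _ => g2 i j) (by
    intro i _ j _ k _ hij hik hjk
    by_contra hn
    have hex := (tri h hij hik hjk (g2 i j) (g2 i k) (g2 j k) hn).1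
    obtain ⟨Z, hZ, hi, hj, hk⟩ := exists_line h ⟨_, _, _, hex⟩
    obtain ⟨ε, hε, hrel⟩ := sign_rel h hθ hZ hi hj hk hex
    have hD := hx Z hZ i hi j hj k hk
    have h1 := hrel (x i) (x j) (x k)
    have h2 : (θ Z j - θ Z k) * (sg (v₀ i) * x i) + (θ Z k - θ Z i) * (sg (v₀ j) * x j)
        + (θ Z i - θ Z j) * (sg (v₀ k) * x k) = 0 := hD
    rw [h2, mul_zero] at h1
    have p1 : 0 < |θ Z j - θ Z k| := abs_pos.2 (sub_ne_zero.2 fun e =>
      hjk (hθ.inj Z hZ j hj k hk e))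
    have p2 := mul_pos p1 (hσ i)
    have p3 := mul_nonneg (abs_nonneg (θ Z i - θ Z k)) (hσ j).le
    have p4 := mul_nonneg (abs_nonneg (θ Z i - θ Z j)) (hσ k).le
    linarith)
  have : y = σ := funext fun i => hyσ i (Finset.mem_univ i)
  rw [← this]; exact hy

/-- Every vertex is realised by a point of the cone. -/
theorem exists_real (h : HCSet V) {v₀ : ι → Bool} {θ : Finset ι → ι → ℝ}
    (hθ : IsTheta V v₀ θ) {v : ι → Bool} (hv : v ∈ V) :
    ∃ x ∈ Lsub V v₀ θ, (∀ i j a b, i ≠ j → ¬ P2 V i j a b → sg a * x i + sg b * x j < 0) ∧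
      ∀ i, 0 < sg (v i) * x i := by
  classical
  rcases isEmpty_or_nonempty ι with hem | hne
  · exact ⟨0, Submodule.zero_mem _, fun i => (hem.false i).elim, fun i => (hem.false i).elim⟩
  -- near pairs
  have hnp : ∀ Z : Finset ι, ∃ pq : ι × ι, IsLine V Z → (pq.1 ∈ Z ∧ pq.2 ∈ Z ∧ pq.1 ≠ pq.2 ∧
      (∀ b ∈ Z, b ≠ pq.1 → b ≠ pq.2 → Far V v b pq.1 pq.2) ∧
      (∀ a ∈ Z, ∀ a' ∈ Z, ¬ Far V v pq.1 a a') ∧ (∀ a ∈ Z, ∀ a' ∈ Z, ¬ Far V v pq.2 a a')) := by
    intro Z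
    by_cases hZ : IsLine V Z
    · obtain ⟨p, hp, q, hq, h1, h2, h3, h4⟩ := near_pair h hv hZ
      exact ⟨(p, q), fun _ => ⟨hp, hq, h1, h2, h3, h4⟩⟩
    · exact ⟨(hne.some, hne.some), fun h' => absurd h' hZ⟩
  choose PQ hPQ using hnp
  -- the line of a far class
  have hzb : ∀ b : ι, ∃ Z : Finset ι, FarS V v b → (IsLine V Z ∧ b ∈ Z ∧
      ∃ a a', a ∈ Z ∧ a' ∈ Z ∧ Far V v b a a') := by
    intro b
    by_cases hb : FarS V v b
    · obtain ⟨a, a', hf⟩ := hb
      obtain ⟨Z, hZ, h1, h2, h3⟩ := exists_line h hf.ht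
      exact ⟨Z, fun _ => ⟨hZ, h3, a, a', h1, h2, hf⟩⟩
    · exact ⟨∅, fun h' => absurd h' hb⟩
  choose Zb hZb using hzb
  set p : ι → ι := fun b => (PQ (Zb b)).1 with hp
  set q : ι → ι := fun b => (PQ (Zb b)).2 with hq
  have hfar : ∀ b, FarS V v b → Far V v b (p b) (q b) := by
    intro b hb
    obtain ⟨hZ, hbZ, a, a', ha, ha', hf⟩ := hZb b hb
    obtain ⟨m1, m2, m3, m4, m5, m6⟩ := hPQ _ hZ
    refine m4 b hbZ ?_ ?_
    · intro hh; exact m5 a ha a' ha' (hh ▸ hf)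
    · intro hh; exact m6 a ha a' ha' (hh ▸ hf)
  set α : ι → ℝ := fun b => |θ (Zb b) (q b) - θ (Zb b) b| / |θ (Zb b) (p b) - θ (Zb b) (q b)|
    with hα
  set β : ι → ℝ := fun b => |θ (Zb b) (p b) - θ (Zb b) b| / |θ (Zb b) (p b) - θ (Zb b) (q b)|
    with hβ
  have habs : ∀ Z, IsLine V Z → ∀ i ∈ Z, ∀ j ∈ Z, i ≠ j → 0 < |θ Z i - θ Z j| := by
    intro Z hZ i hi j hj hij
    exact abs_pos.2 (sub_ne_zero.2 fun e => hij (hθ.inj Z hZ i hi j hj e))
  obtain ⟨w, hw0, hw1, hw2⟩ := exists_weights (rk V v) (FarS V v) p q α β (Nv V v)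
    (by
      intro j hj
      obtain ⟨hZ, hbZ, -⟩ := hZb j hj
      obtain ⟨m1, m2, m3, -⟩ := hPQ _ hZ
      have hf := hfar j hj
      exact div_pos (habs _ hZ _ m2 _ hbZ hf.2.2.1.1) (habs _ hZ _ m1 _ m2 m3))
    (by
      intro j hj
      obtain ⟨hZ, hbZ, -⟩ := hZb j hj
      obtain ⟨m1, m2, m3, -⟩ := hPQ _ hZ
      have hf := hfar j hj
      exact div_pos (habs _ hZ _ m1 _ hbZ hf.2.1.1) (habs _ hZ _ m1 _ m2 m3))
    (by
      intro j hj
      obtain ⟨hZ, hbZ, -⟩ := hZb j hj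
      obtain ⟨m1, m2, m3, m4, m5, m6⟩ := hPQ _ hZ
      exact rk_near h hv hZ hbZ m1 (hfar j hj) m5)
    (by
      intro j hj
      obtain ⟨hZ, hbZ, -⟩ := hZb j hj
      obtain ⟨m1, m2, m3, m4, m5, m6⟩ := hPQ _ hZ
      exact rk_near h hv hZ hbZ m2 (hfar j hj).symm m6)
    (fun i j hN hF => rk_free h hN hF)
    (fun i j hN hF => Nv_of_far h hv (hfar j hF) hN)
  refine ⟨fun i => sg (v i) * w i, ?_, ?_, ?_⟩
  · -- membership in the linear space
    intro Z hZ
    obtain ⟨m1, m2, m3, m4, m5, m6⟩ := hPQ Z hZ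
    set P := (PQ Z).1 with hP
    set Q := (PQ Z).2 with hQ
    have hPQne : θ Z Q - θ Z P ≠ 0 := sub_ne_zero.2 fun e => m3 (hθ.inj Z hZ Q m2 P m1 e).symm
    have key : ∀ b ∈ Z, (θ Z Q - θ Z b) * (sg (v₀ P) * (sg (v P) * w P)) +
        (θ Z b - θ Z P) * (sg (v₀ Q) * (sg (v Q) * w Q)) +
        (θ Z P - θ Z Q) * (sg (v₀ b) * (sg (v b) * w b)) = 0 := by
      intro b hb
      by_cases hbP : b = P
      · subst hbP; ring
      by_cases hbQ : b = Q
      · subst hbQ; ring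
      have hf := m4 b hb hbP hbQ
      have hFS : FarS V v b := ⟨_, _, hf⟩
      obtain ⟨hZ', hbZ', a, a', ha, ha', hf'⟩ := hZb b hFS
      have hP' : P ∈ Zb b := (far_line h hv hZ' hbZ' ha hf' hf).1
      have hZZ : Zb b = Z := by
        apply Finset.Subset.antisymm
        · exact hZ'.sub hZ hbP hbZ' hP' hb m1
        · exact hZ.sub hZ' hbP hb m1 hbZ' hP'
      have hwb := hw1 b hFS
      have ep : p b = P := by simp only [hp, hZZ, hP]
      have eq : q b = Q := by simp only [hq, hZZ, hQ]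
      have hpos : 0 < |θ Z P - θ Z Q| := habs Z hZ P m1 Q m2 m3
      have eα : α b = |θ Z Q - θ Z b| / |θ Z P - θ Z Q| := by simp only [hα, ep, eq, hZZ]
      have eβ : β b = |θ Z P - θ Z b| / |θ Z P - θ Z Q| := by simp only [hβ, ep, eq, hZZ]
      rw [ep, eq, eα, eβ] at hwb
      obtain ⟨ε, hε, hrel⟩ := sign_rel h hθ hZ m1 m2 hb hf
      have hr := hrel (sg (v P) * w P) (sg (v Q) * w Q) (sg (v b) * w b)
      have hr0 : |θ Z Q - θ Z b| * (sg (v P) * (sg (v P) * w P)) +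
          |θ Z P - θ Z b| * (sg (v Q) * (sg (v Q) * w Q)) +
          |θ Z P - θ Z Q| * (sg (!v b) * (sg (v b) * w b)) = 0 := by
        rw [sg_not]
        have e1 := sg_mul_self (v P)
        have e2 := sg_mul_self (v Q)
        have e3 := sg_mul_self (v b)
        have e4 : |θ Z P - θ Z Q| * w b = |θ Z Q - θ Z b| * w P + |θ Z P - θ Z b| * w Q := by
          rw [hwb]; field_simp
        linear_combination (|θ Z Q - θ Z b| * w P) * e1 + (|θ Z P - θ Z b| * w Q) * e2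
          - (|θ Z P - θ Z Q| * w b) * e3 - e4
      rw [hr0] at hr
      exact ((mul_eq_zero.1 hr.symm).resolve_left hε)
    intro i hi j hj k hk
    have hi' := key i hi
    have hj' := key j hj
    have hk' := key k hk
    show (θ Z j - θ Z k) * (sg (v₀ i) * (sg (v i) * w i)) +
      (θ Z k - θ Z i) * (sg (v₀ j) * (sg (v j) * w j)) +
      (θ Z i - θ Z j) * (sg (v₀ k) * (sg (v k) * w k)) = 0
    have : (θ Z Q - θ Z P) * ((θ Z j - θ Z k) * (sg (v₀ i) * (sg (v i) * w i)) +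
      (θ Z k - θ Z i) * (sg (v₀ j) * (sg (v j) * w j)) +
      (θ Z i - θ Z j) * (sg (v₀ k) * (sg (v k) * w k))) = 0 := by
      linear_combination -(θ Z j - θ Z k) * hi' - (θ Z k - θ Z i) * hj' - (θ Z i - θ Z j) * hk'
    exact (mul_eq_zero.1 this).resolve_left hPQne
  · -- the constraints
    intro i j a b hij hn
    by_cases ha : a = v i
    · have hb : b = !v j := beq_not fun hb => hn ⟨v, hv, ha.symm, hb.symm⟩
      have hN : Nv V v i j := ⟨hij, by rw [ha, hb] at hn; exact hn⟩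
      have := hw2 i j hN
      rw [ha, hb, sg_not]
      have e1 := sg_mul_self (v i)
      have e2 := sg_mul_self (v j)
      have : sg (v i) * (sg (v i) * w i) + -sg (v j) * (sg (v j) * w j) = w i - w j := by
        linear_combination (w i) * e1 - (w j) * e2
      linarith
    · have ha' := beq_not ha
      by_cases hb : b = v j
      · have hN : Nv V v j i := ⟨hij.symm, fun hp => hn (by rw [ha', hb]; exact hp.symm)⟩
        have := hw2 j i hN
        rw [ha', hb, sg_not]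
        have e1 := sg_mul_self (v i)
        have e2 := sg_mul_self (v j)
        have : -sg (v i) * (sg (v i) * w i) + sg (v j) * (sg (v j) * w j) = w j - w i := by
          linear_combination -(w i) * e1 + (w j) * e2
        linarith
      · have hb' := beq_not hb
        rw [ha', hb', sg_not, sg_not]
        have e1 := sg_mul_self (v i)
        have e2 := sg_mul_self (v j)
        have : -sg (v i) * (sg (v i) * w i) + -sg (v j) * (sg (v j) * w j) = - w i - w j := by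
          linear_combination -(w i) * e1 - (w j) * e2
        linarith [hw0 i, hw0 j]
  · intro i
    have e1 := sg_mul_self (v i)
    have : sg (v i) * (sg (v i) * w i) = w i := by linear_combination (w i) * e1
    show 0 < sg (v i) * (sg (v i) * w i)
    rw [this]; exact hw0 i

end Pool.Agent.Helper12K9.HC
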